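import Mathlib

set_option autoImplicit false

open Set Topology Function

namespace Pool.Agent.Results.MP_52f683_gt.Hyperconnected

universe u

/-- Any two homeomorphic subsets are exchanged by a homeomorphism of the whole space. -/
def Thin (S : Type u) [TopologicalSpace S] : Prop :=
  ∀ A B : Set S, Nonempty (A ≃ₜ B) → ∃ h : S ≃ₜ S, ⇑h '' A = B

section glue

variable {S : Type u} [TopologicalSpace S] {ι : Type*}

noncomputable def sigHomeo (u : ι → Set S) (hu : ∀ i, IsOpen (u i))
    (du : Pairwise (Disjoint on u)) : (Σ i, u i) ≃ₜ (⋃ i, u i : Set S) := by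
  have hcont : Continuous (fun p : (Σ i, u i) => (p.2 : S)) := by
    apply continuous_sigma
    intro i
    exact continuous_subtype_val
  have hinj : Injective (fun p : (Σ i, u i) => (p.2 : S)) := by
    rintro ⟨i, x, hx⟩ ⟨j, y, hy⟩ h
    have hxy : x = y := h
    subst hxy
    have hij : i = j := by
      by_contra hne
      exact Set.disjoint_left.1 (du hne) hx hy
    subst hij
    rfl
  have hopen : IsOpenMap (fun p : (Σ i, u i) => (p.2 : S)) := by
    rw [isOpenMap_sigma]
    intro i
    exact (hu i).isOpenMap_subtype_val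
  have hemb : IsEmbedding (fun p : (Σ i, u i) => (p.2 : S)) :=
    (IsOpenEmbedding.of_continuous_injective_isOpenMap hcont hinj hopen).isEmbedding
  refine hemb.toHomeomorph.trans (Homeomorph.setCongr ?_)
  ext x
  constructor
  · rintro ⟨⟨i, y⟩, rfl⟩
    exact mem_iUnion.2 ⟨i, y.2⟩
  · intro hx
    obtain ⟨i, hi⟩ := mem_iUnion.1 hx
    exact ⟨⟨i, ⟨x, hi⟩⟩, rfl⟩

theorem glue (u v : ι → Set S) (hu : ∀ i, IsOpen (u i)) (hv : ∀ i, IsOpen (v i))
    (du : Pairwise (Disjoint on u)) (dv : Pairwise (Disjoint on v))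
    (e : ∀ i, Nonempty (u i ≃ₜ v i)) :
    Nonempty ((⋃ i, u i : Set S) ≃ₜ (⋃ i, v i : Set S)) := by
  have e := fun i => (e i).some
  have key : (Σ i, u i) ≃ₜ (Σ i, v i) :=
    { toEquiv := Equiv.sigmaCongrRight fun i => (e i).toEquiv
      continuous_toFun := by
        apply continuous_sigma
        intro i
        exact continuous_sigmaMk.comp (e i).continuous
      continuous_invFun := by
        apply continuous_sigma
        intro i
        exact continuous_sigmaMk.comp (e i).symm.continuous }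
  exact ⟨(sigHomeo u hu du).symm.trans (key.trans (sigHomeo v hv dv))⟩

end glue

section thin

variable {S : Type u} [TopologicalSpace S]

theorem homog (hS : Thin S) (x y : S) : ∃ h : S ≃ₜ S, h x = y := by
  have : Nonempty (({x} : Set S) ≃ₜ ({y} : Set S)) := by
    refine ⟨{ toFun := fun _ => ⟨y, rfl⟩, invFun := fun _ => ⟨x, rfl⟩, left_inv := ?_,
              right_inv := ?_, continuous_toFun := continuous_const,
              continuous_invFun := continuous_const }⟩
    · rintro ⟨z, hz⟩
      exact Subtype.ext (by simpa using hz.symm)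
    · rintro ⟨z, hz⟩
      exact Subtype.ext (by simpa using hz.symm)
  obtain ⟨h, hh⟩ := hS _ _ this
  refine ⟨h, ?_⟩
  rw [image_singleton] at hh
  exact Set.singleton_eq_singleton_iff.1 hh

/-- the restriction of a homeomorphism to a set -/
theorem restr (h : S ≃ₜ S) (A : Set S) : Nonempty (A ≃ₜ (h '' A : Set S)) :=
  ⟨h.image A⟩

theorem symmNE {A B : Set S} : Nonempty (A ≃ₜ B) → Nonempty (B ≃ₜ A)
  | ⟨e⟩ => ⟨e.symm⟩

theorem transNE {A B C : Set S} : Nonempty (A ≃ₜ B) → Nonempty (B ≃ₜ C) → Nonempty (A ≃ₜ C)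
  | ⟨e⟩, ⟨f⟩ => ⟨e.trans f⟩

theorem remove_one {α : Type u} [Infinite α] (a : α) : Nonempty (α ≃ {x : α // x ≠ a}) := by
  have h := Cardinal.mk_compl_finset_of_infinite ({a} : Finset α)
  have h2 : Cardinal.mk {x : α // x ≠ a} = Cardinal.mk α := by
    rw [← h]
    apply Cardinal.mk_congr
    exact Equiv.subtypeEquivRight (by intro x; simp)
  exact Cardinal.eq.1 h2.symm

/-- In a thin space there is no infinite disjoint family of homeomorphic nonempty open sets. -/
theorem no_inf_family (hS : Thin S) (W : ℕ → Set S) (ho : ∀ n, IsOpen (W n))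
    (hne : ∀ n, (W n).Nonempty) (hd : Pairwise (Disjoint on W))
    (he : ∀ n, Nonempty (W 0 ≃ₜ W n)) : False := by
  classical
  let P : Set (Set (Set S)) := {U | (∀ V ∈ U, IsOpen V ∧ V.Nonempty ∧ Nonempty (W 0 ≃ₜ V)) ∧
    U.PairwiseDisjoint id}
  have h0 : range W ∈ P := by
    refine ⟨?_, ?_⟩
    · rintro V ⟨n, rfl⟩
      exact ⟨ho n, hne n, he n⟩
    · rintro V ⟨n, rfl⟩ V' ⟨m, rfl⟩ hVV'
      have : n ≠ m := fun h => hVV' (by rw [h])
      exact hd this
  obtain ⟨U, hU0, hUmax⟩ := zorn_subset_nonempty P (by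
    intro c hc hchain hcne
    refine ⟨⋃₀ c, ⟨?_, ?_⟩, fun s hs => subset_sUnion_of_mem hs⟩
    · rintro V ⟨s, hs, hV⟩
      exact (hc hs).1 V hV
    · rintro V ⟨s, hs, hV⟩ V' ⟨s', hs', hV'⟩ hVV'
      rcases hchain.total hs hs' with h | h
      · exact (hc hs').2 (h hV) hV' hVV'
      · exact (hc hs).2 hV (h hV') hVV') (range W) h0
  have hUP : U ∈ P := hUmax.1
  have hUinf : Infinite U := by
    have : (range W).Infinite := by
      apply infinite_range_of_injective
      intro n m hnm
      by_contra hne'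
      have := hd hne'
      simp only [onFun] at this
      rw [hnm, disjoint_self] at this
      exact (hne m).ne_empty this
    exact (this.mono hU0).to_subtype
  obtain ⟨V0, hV0⟩ : U.Nonempty := ⟨W 0, hU0 ⟨0, rfl⟩⟩
  obtain ⟨σ⟩ := remove_one (⟨V0, hV0⟩ : U)
  have hglue := glue (ι := U) (fun i => (i : Set S)) (fun i => ((σ i : U) : Set S))
    (fun i => (hUP.1 i i.2).1) (fun i => (hUP.1 _ (σ i : U).2).1)
    (fun i j hij => hUP.2 i.2 j.2 (fun h => hij (Subtype.ext h)))
    (fun i j hij => hUP.2 (σ i : U).2 (σ j : U).2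
      (fun h => hij (σ.injective (Subtype.ext (Subtype.ext h)))))
    (fun i => transNE (symmNE (hUP.1 i i.2).2.2) (hUP.1 _ (σ i : U).2).2.2)
  obtain ⟨h, hh⟩ := hS _ _ hglue
  have hdis : Disjoint V0 (⋃ i : U, ((σ i : U) : Set S)) := by
    rw [disjoint_iUnion_right]
    intro i
    exact hUP.2 hV0 (σ i : U).2 (fun h => (σ i).2 (Subtype.ext h.symm))
  set V1 : Set S := h.symm '' V0 with hV1
  have hV1ne : V1.Nonempty := (hUP.1 V0 hV0).2.1.image _
  have hV1dis : ∀ V ∈ U, Disjoint V1 V := by
    intro V hV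
    rw [Set.disjoint_left]
    rintro _ ⟨y, hy, rfl⟩ hyV
    have : h (h.symm y) ∈ h '' (⋃ i : U, (i : Set S)) :=
      ⟨_, mem_iUnion.2 ⟨⟨V, hV⟩, hyV⟩, rfl⟩
    rw [hh, Homeomorph.apply_symm_apply] at this
    exact Set.disjoint_left.1 hdis hy this
  have hins : insert V1 U ∈ P := by
    refine ⟨?_, ?_⟩
    · rintro V (rfl | hV)
      · exact ⟨h.symm.isOpenMap _ (hUP.1 V0 hV0).1, hV1ne,
          transNE (hUP.1 V0 hV0).2.2 (restr h.symm V0)⟩
      · exact hUP.1 V hV
    · apply hUP.2.insert
      intro V hV _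
      exact hV1dis V hV
  have : V1 ∈ U := hUmax.2 hins (subset_insert _ _) (mem_insert _ _)
  have h1 := hV1dis V1 this
  rw [disjoint_self] at h1
  exact hV1ne.ne_empty h1

/-- Gluing of two pieces. -/
theorem glue2 {u v u' v' : Set S} (hu : IsOpen u) (hv : IsOpen v) (hu' : IsOpen u')
    (hv' : IsOpen v') (d : Disjoint u v) (d' : Disjoint u' v') (e1 : Nonempty (u ≃ₜ u'))
    (e2 : Nonempty (v ≃ₜ v')) : Nonempty ((u ∪ v : Set S) ≃ₜ (u' ∪ v' : Set S)) := by
  have h := glue (ι := Bool) (fun b => cond b u v) (fun b => cond b u' v')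
    (by intro b; cases b <;> assumption) (by intro b; cases b <;> assumption)
    (by
      intro b c hbc
      cases b <;> cases c
      · exact absurd rfl hbc
      · exact d.symm
      · exact d
      · exact absurd rfl hbc)
    (by
      intro b c hbc
      cases b <;> cases c
      · exact absurd rfl hbc
      · exact d'.symm
      · exact d'
      · exact absurd rfl hbc)
    (by intro b; cases b <;> assumption)
  rw [← union_eq_iUnion, ← union_eq_iUnion] at h
  exact h

/-- A thin space is never the union of an infinite sequence of disjoint nonempty open sets. -/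
theorem no_partition (hS : Thin S) (W : ℕ → Set S) (ho : ∀ n, IsOpen (W n))
    (hne : ∀ n, (W n).Nonempty) (hd : Pairwise (Disjoint on W)) (hu : ⋃ n, W n = univ) :
    False := by
  classical
  have hcl : ∀ n, IsClosed (W n) := by
    intro n
    have : (W n)ᶜ = ⋃ m : {m : ℕ // m ≠ n}, W m := by
      ext x
      constructor
      · intro hx
        have : x ∈ ⋃ n, W n := by rw [hu]; trivial
        obtain ⟨m, hm⟩ := mem_iUnion.1 this
        refine mem_iUnion.2 ⟨⟨m, ?_⟩, hm⟩
        rintro rfl
        exact hx hm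
      · intro hx hx'
        obtain ⟨⟨m, hmn⟩, hm⟩ := mem_iUnion.1 hx
        exact Set.disjoint_left.1 (hd hmn) hm hx'
    rw [← isOpen_compl_iff, this]
    exact isOpen_iUnion fun m => ho m
  obtain ⟨x0, hx0⟩ := hne 0
  choose y hy using hne
  choose g hg using fun n => homog hS x0 (y n)
  set h : ℕ → (S ≃ₜ S) := fun n => if n = 0 then Homeomorph.refl S else g n with hh
  have h0 : h 0 = Homeomorph.refl S := by simp [hh]
  have hhW : ∀ n, h n x0 ∈ W n := by
    intro n
    by_cases hn : n = 0
    · subst hn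
      rw [h0]
      exact hx0
    · have : h n = g n := by simp [hh, hn]
      rw [this, hg]
      exact hy n
  set T : ℕ → Set S := fun n => ⋂ k ∈ Finset.range (n+1), h k ⁻¹' (W k) with hT
  have hTc : ∀ n, IsClopen (T n) := by
    intro n
    refine ⟨?_, ?_⟩
    · exact isClosed_biInter fun k _ => (hcl k).preimage (h k).continuous
    · exact isOpen_biInter_finset fun k _ => (ho k).preimage (h k).continuous
  have hTx : ∀ n, x0 ∈ T n := by
    intro n
    simp only [hT, mem_iInter]
    exact fun k _ => hhW k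
  have hTW : ∀ n, h n '' T n ⊆ W n := by
    rintro n _ ⟨z, hz, rfl⟩
    simp only [hT, mem_iInter] at hz
    exact hz n (by simp)
  have hTW0 : ∀ n, T n ⊆ W 0 := by
    intro n z hz
    simp only [hT, mem_iInter] at hz
    have := hz 0 (by simp)
    rw [h0] at this
    exact this
  have hTanti : ∀ n m, n ≤ m → T m ⊆ T n := by
    intro n m hnm z hz
    simp only [hT, mem_iInter] at hz ⊢
    intro k hk
    exact hz k (by simp only [Finset.mem_range] at hk ⊢; omega)
  have hT0 : T 0 = W 0 := by
    apply Subset.antisymm (hTW0 0)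
    intro z hz
    simp only [hT, mem_iInter]
    intro k hk
    have : k = 0 := by simpa using hk
    subst this
    rw [h0]
    exact hz
  -- pieces
  set A : ℕ × Fin 3 → Set S := fun p =>
    if p.2 = 0 then h p.1 '' T (p.1+1)
    else if p.2 = 1 then h p.1 '' (T p.1 \ T (p.1+1)) else W p.1 \ h p.1 '' T p.1 with hA
  set B : ℕ × Fin 3 → Set S := fun p =>
    if p.2 = 0 then h (p.1+1) '' T (p.1+1)
    else if p.2 = 1 then (T p.1 \ T (p.1+1)) else W p.1 \ h p.1 '' T p.1 with hB
  have hA0 : ∀ n, A (n, 0) = h n '' T (n+1) := fun n => by simp [hA]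
  have hA1 : ∀ n, A (n, 1) = h n '' (T n \ T (n+1)) := fun n => by simp [hA]
  have hA2 : ∀ n, A (n, 2) = W n \ h n '' T n := fun n => by simp [hA]
  have hB0 : ∀ n, B (n, 0) = h (n+1) '' T (n+1) := fun n => by simp [hB]
  have hB1 : ∀ n, B (n, 1) = T n \ T (n+1) := fun n => by simp [hB]
  have hB2 : ∀ n, B (n, 2) = W n \ h n '' T n := fun n => by simp [hB]
  have hopR : ∀ n, IsOpen (W n \ h n '' T n) := fun n =>
    (ho n).sdiff ((h n).isClosedMap _ (hTc n).isClosed)
  have hopQ : ∀ n, IsOpen (T n \ T (n+1)) := fun n => (hTc n).isOpen.sdiff (hTc (n+1)).isClosed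
  have hAW : ∀ p, A p ⊆ W p.1 := by
    rintro ⟨n, i⟩
    fin_cases i
    · exact (hA0 n).subset.trans ((image_mono (hTanti _ _ (by omega))).trans (hTW n))
    · exact (hA1 n).subset.trans ((image_mono sdiff_subset).trans (hTW n))
    · exact (hA2 n).subset.trans sdiff_subset
  have hopA : ∀ p, IsOpen (A p) := by
    rintro ⟨n, i⟩
    fin_cases i
    · show IsOpen (A (n, 0))
      rw [hA0]; exact (h n).isOpenMap _ (hTc _).isOpen
    · show IsOpen (A (n, 1))
      rw [hA1]; exact (h n).isOpenMap _ (hopQ n)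
    · show IsOpen (A (n, 2))
      rw [hA2]; exact hopR n
  have hopB : ∀ p, IsOpen (B p) := by
    rintro ⟨n, i⟩
    fin_cases i
    · show IsOpen (B (n, 0))
      rw [hB0]; exact (h (n+1)).isOpenMap _ (hTc _).isOpen
    · show IsOpen (B (n, 1))
      rw [hB1]; exact hopQ n
    · show IsOpen (B (n, 2))
      rw [hB2]; exact hopR n
  have hdW : ∀ n m : ℕ, n ≠ m → ∀ z, z ∈ W n → z ∈ W m → False := fun n m hnm z h1 h2 =>
    Set.disjoint_left.1 (hd hnm) h1 h2
  have hsame : ∀ n, Disjoint (A (n,0)) (A (n,1)) ∧ Disjoint (A (n,0)) (A (n,2)) ∧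
      Disjoint (A (n,1)) (A (n,2)) := by
    intro n
    rw [hA0, hA1, hA2]
    refine ⟨?_, ?_, ?_⟩
    · rw [disjoint_image_iff (h n).injective]
      exact disjoint_sdiff_right
    · apply disjoint_sdiff_right.mono_left
      exact image_mono (hTanti _ _ (by omega))
    · apply disjoint_sdiff_right.mono_left
      exact image_mono sdiff_subset
  have hdA : Pairwise (Disjoint on A) := by
    rintro ⟨n, i⟩ ⟨m, j⟩ hne'
    by_cases hnm : n = m
    · subst hnm
      obtain ⟨h01, h02, h12⟩ := hsame n
      fin_cases i <;> fin_cases j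
      · exact absurd rfl hne'
      · exact h01
      · exact h02
      · exact h01.symm
      · exact absurd rfl hne'
      · exact h12
      · exact h02.symm
      · exact h12.symm
      · exact absurd rfl hne'
    · exact (hd hnm).mono (hAW _) (hAW _)
  have hB0W : ∀ n, B (n, 0) ⊆ W (n+1) := fun n => (hB0 n).subset.trans (hTW _)
  have hB1W : ∀ n, B (n, 1) ⊆ W 0 := fun n => (hB1 n).subset.trans (sdiff_subset.trans (hTW0 _))
  have hB2W : ∀ n, B (n, 2) ⊆ W n := fun n => (hB2 n).subset.trans sdiff_subset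
  have hB20 : B (0, 2) = ∅ := by
    rw [hB2, h0, hT0]
    simp
  have hB00 : ∀ n m, n ≠ m → Disjoint (B (n,0)) (B (m,0)) := fun n m hnm =>
    (hd (by omega : n + 1 ≠ m + 1)).mono (hB0W n) (hB0W m)
  have hB01 : ∀ n m, Disjoint (B (n,0)) (B (m,1)) := fun n m =>
    (hd (by omega : n + 1 ≠ 0)).mono (hB0W n) (hB1W m)
  have hB02 : ∀ n m, Disjoint (B (n,0)) (B (m,2)) := by
    intro n m
    by_cases hm : m = n + 1
    · subst hm
      rw [hB0, hB2]
      exact disjoint_sdiff_right
    · exact (hd (by omega : n + 1 ≠ m)).mono (hB0W n) (hB2W m)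
  have hB11 : ∀ n m, n ≠ m → Disjoint (B (n,1)) (B (m,1)) := by
    have aux : ∀ n m, n < m → Disjoint (B (n,1)) (B (m,1)) := by
      intro n m hnm
      rw [hB1, hB1, Set.disjoint_left]
      rintro z ⟨_, hz2⟩ ⟨hz3, _⟩
      exact hz2 (hTanti _ _ (by omega) hz3)
    intro n m hnm
    rcases lt_or_gt_of_ne hnm with hlt | hlt
    · exact aux n m hlt
    · exact (aux m n hlt).symm
  have hB12 : ∀ n m, Disjoint (B (n,1)) (B (m,2)) := by
    intro n m
    by_cases hm : m = 0
    · subst hm
      rw [hB20]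
      exact disjoint_empty _
    · exact (hd (fun h => hm h.symm)).mono (hB1W n) (hB2W m)
  have hB22 : ∀ n m, n ≠ m → Disjoint (B (n,2)) (B (m,2)) := fun n m hnm =>
    (hd hnm).mono (hB2W n) (hB2W m)
  have hdB : Pairwise (Disjoint on B) := by
    rintro ⟨n, i⟩ ⟨m, j⟩ hne'
    fin_cases i <;> fin_cases j
    · exact hB00 n m (fun h => hne' (by subst h; rfl))
    · exact hB01 n m
    · exact hB02 n m
    · exact (hB01 m n).symm
    · exact hB11 n m (fun h => hne' (by subst h; rfl))
    · exact hB12 n m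
    · exact (hB02 m n).symm
    · exact (hB12 m n).symm
    · exact hB22 n m (fun h => hne' (by subst h; rfl))
  have he : ∀ p, Nonempty (A p ≃ₜ B p) := by
    rintro ⟨n, i⟩
    fin_cases i
    · show Nonempty (A (n, 0) ≃ₜ B (n, 0))
      rw [hA0, hB0]
      exact transNE (symmNE (restr (h n) _)) (restr (h (n+1)) _)
    · show Nonempty (A (n, 1) ≃ₜ B (n, 1))
      rw [hA1, hB1]
      exact symmNE (restr (h n) _)
    · show Nonempty (A (n, 2) ≃ₜ B (n, 2))
      rw [hA2, hB2]
      exact ⟨Homeomorph.refl _⟩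
  obtain ⟨k, hk⟩ := hS _ _ (glue A B hopA hopB hdA hdB he)
  have hAu : (⋃ p, A p) = univ := by
    apply eq_univ_of_forall
    intro z
    have : z ∈ ⋃ n, W n := by rw [hu]; trivial
    obtain ⟨n, hn⟩ := mem_iUnion.1 this
    by_cases h1 : z ∈ h n '' T n
    · obtain ⟨w, hw, rfl⟩ := h1
      by_cases h2 : w ∈ T (n+1)
      · exact mem_iUnion.2 ⟨(n, 0), by rw [hA0]; exact ⟨w, h2, rfl⟩⟩
      · exact mem_iUnion.2 ⟨(n, 1), by rw [hA1]; exact ⟨w, ⟨hw, h2⟩, rfl⟩⟩
    · exact mem_iUnion.2 ⟨(n, 2), by rw [hA2]; exact ⟨hn, h1⟩⟩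
  have hx : x0 ∈ ⋃ p, B p := by
    rw [← hk, hAu, image_univ, k.surjective.range_eq]
    trivial
  obtain ⟨⟨n, i⟩, hp⟩ := mem_iUnion.1 hx
  fin_cases i
  · exact hdW 0 (n+1) (by omega) x0 hx0 (hB0W n hp)
  · have : x0 ∈ B (n, 1) := hp
    rw [hB1] at this
    exact this.2 (hTx _)
  · have hp' : x0 ∈ B (n, 2) := hp
    by_cases hn : n = 0
    · subst hn
      rw [hB20] at hp'
      exact hp'
    · exact hdW 0 n (fun h => hn h.symm) x0 hx0 (hB2W n hp')

end thin



section sum

variable {S : Type u} [TopologicalSpace S]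

/-- Two mutually separated sets form a topological sum. -/
theorem sumHomeo {P Q : Set S} (h1 : Disjoint P (closure Q)) (h2 : Disjoint (closure P) Q) :
    Nonempty ((P ⊕ Q) ≃ₜ (P ∪ Q : Set S)) := by
  let f : P ⊕ Q → S := Sum.elim Subtype.val Subtype.val
  have hPQ : Disjoint P Q := h1.mono_right subset_closure
  have hcont : Continuous f := continuous_subtype_val.sumElim continuous_subtype_val
  have hinj : Injective f := by
    rintro (⟨x, hx⟩ | ⟨x, hx⟩) (⟨y, hy⟩ | ⟨y, hy⟩) hxy
    · have : x = y := hxy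
      subst this; rfl
    · have : x = y := hxy
      subst this
      exact absurd hy (Set.disjoint_left.1 hPQ hx)
    · have : x = y := hxy
      subst this
      exact absurd hx (Set.disjoint_left.1 hPQ hy)
    · have : x = y := hxy
      subst this; rfl
  have hemb : IsEmbedding f := by
    refine ⟨⟨?_⟩, hinj⟩
    apply le_antisymm
    · exact continuous_iff_le_induced.1 hcont
    · intro O hO
      rw [isOpen_sum_iff] at hO
      obtain ⟨hO1, hO2⟩ := hO
      obtain ⟨U, hU, hU'⟩ := isOpen_induced_iff.1 hO1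
      obtain ⟨V, hV, hV'⟩ := isOpen_induced_iff.1 hO2
      rw [isOpen_induced_iff]
      refine ⟨(U ∩ (closure Q)ᶜ) ∪ (V ∩ (closure P)ᶜ),
        (hU.inter isClosed_closure.isOpen_compl).union
          (hV.inter isClosed_closure.isOpen_compl), ?_⟩
      ext z
      rcases z with ⟨x, hx⟩ | ⟨x, hx⟩
      · have e1 : (Sum.inl ⟨x, hx⟩ : P ⊕ Q) ∈ O ↔ x ∈ U := by
          have : (⟨x, hx⟩ : P) ∈ Subtype.val ⁻¹' U ↔ (⟨x, hx⟩ : P) ∈ Sum.inl ⁻¹' O := by
            rw [hU']
          exact this.symm
        rw [e1]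
        constructor
        · rintro (h | h)
          · exact h.1
          · exact absurd (subset_closure hx) h.2
        · intro h
          exact Or.inl ⟨h, Set.disjoint_left.1 h1 hx⟩
      · have e1 : (Sum.inr ⟨x, hx⟩ : P ⊕ Q) ∈ O ↔ x ∈ V := by
          have : (⟨x, hx⟩ : Q) ∈ Subtype.val ⁻¹' V ↔ (⟨x, hx⟩ : Q) ∈ Sum.inr ⁻¹' O := by
            rw [hV']
          exact this.symm
        rw [e1]
        constructor
        · rintro (h | h)
          · exact absurd (subset_closure hx) h.2
          · exact h.1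
        · intro h
          exact Or.inr ⟨h, fun hx' => Set.disjoint_left.1 h2 hx' hx⟩
  refine ⟨hemb.toHomeomorph.trans (Homeomorph.setCongr ?_)⟩
  show range (Sum.elim (Subtype.val : P → S) (Subtype.val : Q → S)) = P ∪ Q
  rw [Set.Sum.elim_range, Subtype.range_val, Subtype.range_val]

theorem glueSep {P Q P' Q' : Set S} (h1 : Disjoint P (closure Q)) (h2 : Disjoint (closure P) Q)
    (h1' : Disjoint P' (closure Q')) (h2' : Disjoint (closure P') Q')
    (e1 : Nonempty (P ≃ₜ P')) (e2 : Nonempty (Q ≃ₜ Q')) :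
    Nonempty ((P ∪ Q : Set S) ≃ₜ (P' ∪ Q' : Set S)) := by
  obtain ⟨a⟩ := sumHomeo h1 h2
  obtain ⟨b⟩ := sumHomeo h1' h2'
  obtain ⟨c⟩ := e1
  obtain ⟨d⟩ := e2
  exact ⟨a.symm.trans ((c.sumCongr d).trans b)⟩

/-- The isolated points of a set. -/
def isol (K : Set S) : Set S := {x | x ∈ K ∧ ∃ O, IsOpen O ∧ x ∈ O ∧ O ∩ K ⊆ {x}}

theorem isol_subset (K : Set S) : isol K ⊆ K := fun _ hx => hx.1

theorem isol_image_sub (h : S ≃ₜ S) (K : Set S) : h '' isol K ⊆ isol (h '' K) := by
  rintro _ ⟨x, ⟨hx, O, hO, hxO, hOK⟩, rfl⟩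
  refine ⟨⟨x, hx, rfl⟩, h '' O, h.isOpenMap _ hO, ⟨x, hxO, rfl⟩, ?_⟩
  rw [← image_inter h.injective]
  rintro _ ⟨z, hz, rfl⟩
  have := hOK hz
  simp only [mem_singleton_iff] at this ⊢
  rw [this]

theorem isol_image (h : S ≃ₜ S) (K : Set S) : h '' isol K = isol (h '' K) := by
  apply Subset.antisymm (isol_image_sub h K)
  have := isol_image_sub h.symm (h '' K)
  rw [← image_comp] at this
  have e : (h.symm ∘ h) = id := by ext x; simp
  rw [e, image_id] at this
  intro y hy
  exact ⟨h.symm y, this ⟨y, hy, rfl⟩, by simp⟩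

theorem isol_union {P Q : Set S} (h1 : Disjoint P (closure Q)) (h2 : Disjoint (closure P) Q) :
    isol (P ∪ Q) = isol P ∪ isol Q := by
  apply Subset.antisymm
  · rintro x ⟨hx | hx, O, hO, hxO, hOK⟩
    · exact Or.inl ⟨hx, O, hO, hxO, fun z hz => hOK ⟨hz.1, Or.inl hz.2⟩⟩
    · exact Or.inr ⟨hx, O, hO, hxO, fun z hz => hOK ⟨hz.1, Or.inr hz.2⟩⟩
  · rintro x (⟨hx, O, hO, hxO, hOK⟩ | ⟨hx, O, hO, hxO, hOK⟩)
    · refine ⟨Or.inl hx, O ∩ (closure Q)ᶜ, hO.inter isClosed_closure.isOpen_compl,
        ⟨hxO, Set.disjoint_left.1 h1 hx⟩, ?_⟩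
      rintro z ⟨⟨hz1, hz2⟩, hz3 | hz3⟩
      · exact hOK ⟨hz1, hz3⟩
      · exact absurd (subset_closure hz3) hz2
    · refine ⟨Or.inr hx, O ∩ (closure P)ᶜ, hO.inter isClosed_closure.isOpen_compl,
        ⟨hxO, Set.disjoint_right.1 h2 hx⟩, ?_⟩
      rintro z ⟨⟨hz1, hz2⟩, hz3 | hz3⟩
      · exact absurd (subset_closure hz3) hz2
      · exact hOK ⟨hz1, hz3⟩

/-- Discrete sequences. -/
def DSeq (d : ℕ → S) : Prop := ∀ n, ∃ O, IsOpen O ∧ d n ∈ O ∧ ∀ m, d m ∈ O → m = n

theorem DSeq.inj {d : ℕ → S} (hd : DSeq d) : Injective d := by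
  intro m n h
  obtain ⟨O, -, h1, h2⟩ := hd n
  exact h2 m (by rw [h]; exact h1)

theorem DSeq.emb {d : ℕ → S} (hd : DSeq d) : IsEmbedding d := by
  refine ⟨⟨Eq.symm (eq_bot_of_singletons_open fun n => ?_)⟩, hd.inj⟩
  obtain ⟨O, h0, h1, h2⟩ := hd n
  refine ⟨O, h0, ?_⟩
  ext m
  constructor
  · intro hm
    exact h2 m hm
  · intro hm
    have : m = n := hm
    rw [mem_preimage, this]
    exact h1

theorem DSeq.homeo {d e : ℕ → S} (hd : DSeq d) (he : DSeq e) :
    Nonempty (range d ≃ₜ range e) :=
  ⟨hd.emb.toHomeomorph.symm.trans he.emb.toHomeomorph⟩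

theorem DSeq.isol {d : ℕ → S} (hd : DSeq d) : isol (range d) = range d := by
  apply Subset.antisymm (isol_subset _)
  rintro _ ⟨n, rfl⟩
  obtain ⟨O, h0, h1, h2⟩ := hd n
  refine ⟨⟨n, rfl⟩, O, h0, h1, ?_⟩
  rintro _ ⟨hz, ⟨m, rfl⟩⟩
  rw [h2 m hz]
  rfl

theorem DSeq.comp {d : ℕ → S} (hd : DSeq d) {f : ℕ → ℕ} (hf : Injective f) : DSeq (d ∘ f) := by
  intro n
  obtain ⟨O, h0, h1, h2⟩ := hd (f n)
  exact ⟨O, h0, h1, fun m hm => hf (h2 _ hm)⟩

/-- sequences with a disjoint open expansion are discrete -/
theorem DSeq.of_disj {d : ℕ → S} {U : ℕ → Set S} (hU : ∀ n, IsOpen (U n))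
    (hdU : Pairwise (Disjoint on U)) (h : ∀ n, d n ∈ U n) : DSeq d := by
  intro n
  refine ⟨U n, hU n, h n, ?_⟩
  intro m hm
  by_contra hne
  exact Set.disjoint_left.1 (hdU hne) (h m) hm

/-- prepend a point -/
def cons (x : S) (d : ℕ → S) : ℕ → S
  | 0 => x
  | n+1 => d n

theorem range_cons (x : S) (d : ℕ → S) : range (cons x d) = range d ∪ {x} := by
  ext y
  constructor
  · rintro ⟨n, rfl⟩
    cases n with
    | zero => exact Or.inr rfl
    | succ n => exact Or.inl ⟨n, rfl⟩
  · rintro (⟨n, rfl⟩ | hy)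
    · exact ⟨n+1, rfl⟩
    · exact ⟨0, by rw [mem_singleton_iff.1 hy]; rfl⟩

theorem DSeq.cons [T1Space S] {d : ℕ → S} (hd : DSeq d) {x : S} (hx : x ∉ closure (range d)) :
    DSeq (cons x d) := by
  intro n
  cases n with
  | zero =>
    refine ⟨(closure (range d))ᶜ, isClosed_closure.isOpen_compl, hx, ?_⟩
    intro m hm
    cases m with
    | zero => rfl
    | succ m =>
      have : d m ∈ range d := ⟨m, rfl⟩
      exact absurd (subset_closure this) hm
  | succ n =>
    obtain ⟨O, h0, h1, h2⟩ := hd n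
    refine ⟨O ∩ {x}ᶜ, h0.inter isClosed_singleton.isOpen_compl, ⟨h1, ?_⟩, ?_⟩
    · intro h
      have h3 : d n = x := h
      have h4 : d n ∈ range d := ⟨n, rfl⟩
      rw [h3] at h4
      exact hx (subset_closure h4)
    · intro m hm
      cases m with
      | zero => exact absurd rfl hm.2
      | succ m => rw [h2 m hm.1]

end sum



section alpha

variable {S : Type u} [TopologicalSpace S]

/-- an infinite thin space has no isolated points -/
theorem not_open_singleton [Infinite S] (hS : Thin S) (x : S) : ¬ IsOpen ({x} : Set S) := by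
  intro hx
  have hall : ∀ y : S, IsOpen ({y} : Set S) := by
    intro y
    obtain ⟨g, hg⟩ := homog hS x y
    have := g.isOpenMap _ hx
    rwa [image_singleton, hg] at this
  let f := Infinite.natEmbedding S
  apply no_inf_family hS (fun n => {f n}) (fun n => hall _) (fun n => singleton_nonempty _)
  · intro n m hnm
    simp only [onFun, disjoint_singleton]
    exact fun h => hnm (f.injective h)
  · intro n
    obtain ⟨g, hg⟩ := homog hS (f 0) (f n)
    have := restr g {f 0}
    rwa [image_singleton, hg] at this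

theorem exists_ne_mem [T1Space S] [Infinite S] (hS : Thin S) {U : Set S} (hU : IsOpen U) {x : S}
    (hx : x ∈ U) : ∃ y ∈ U, y ≠ x := by
  by_contra hcon
  push Not at hcon
  apply not_open_singleton hS x
  have : ({x} : Set S) = U := by
    ext y
    constructor
    · intro hy
      rw [mem_singleton_iff.1 hy]; exact hx
    · intro hy
      exact hcon y hy
  rw [this]
  exact hU

/-- In an extremally disconnected thin space a clopen set minus a finite set is never the union
of an infinite sequence of disjoint nonempty open sets. -/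
theorem no_partition_fin [ExtremallyDisconnected S] (hS : Thin S) (c : Set S) (hc : IsClopen c)
    (F : Set S) (hF : F.Finite) (e : ℕ → Set S) (ho : ∀ n, IsOpen (e n))
    (hne : ∀ n, (e n).Nonempty) (hd : Pairwise (Disjoint on e)) (hu : ⋃ n, e n = c \ F) :
    False := by
  classical
  obtain ⟨k, hk⟩ : ∃ k, k = hF.toFinset.card := ⟨_, rfl⟩
  let U : Fin (k+1) → Set S := fun j => ⋃ n : {n : ℕ // n % (k+1) = j}, e n
  have hUo : ∀ j, IsOpen (U j) := fun j => isOpen_iUnion fun n => ho n
  have hUd : ∀ i j, i ≠ j → Disjoint (U i) (U j) := by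
    intro i j hij
    rw [disjoint_iUnion_left]
    rintro ⟨n, hn⟩
    rw [disjoint_iUnion_right]
    rintro ⟨m, hm⟩
    apply hd
    rintro rfl
    exact hij (Fin.ext (hn.symm.trans hm))
  have hex : ∃ j, Disjoint (closure (U j)) F := by
    by_contra hcon
    push Not at hcon
    have : ∀ j, ∃ x, x ∈ closure (U j) ∧ x ∈ hF.toFinset := by
      intro j
      obtain ⟨x, hx1, hx2⟩ := Set.not_disjoint_iff.1 (hcon j)
      exact ⟨x, hx1, by simpa using hx2⟩
    choose f hf1 hf2 using this
    have hcard : hF.toFinset.card < (Finset.univ : Finset (Fin (k+1))).card := by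
      rw [Finset.card_univ, Fintype.card_fin, hk]
      omega
    obtain ⟨i, -, j, -, hij, hfij⟩ :=
      Finset.exists_ne_map_eq_of_card_lt_of_maps_to hcard (fun j _ => hf2 j)
    have hdis := ExtremallyDisconnected.disjoint_closure_of_disjoint_isOpen (hUd i j hij)
      (hUo i) (hUo j)
    exact Set.disjoint_left.1 hdis (hf1 i) (by rw [hfij]; exact hf1 j)
  obtain ⟨j, hj⟩ := hex
  have hsub : closure (U j) ⊆ U j := by
    intro x hx
    have hxc : x ∈ c := by
      apply hc.isClosed.closure_subset_iff.2 _ hx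
      intro y hy
      obtain ⟨n, hn⟩ := mem_iUnion.1 hy
      have : y ∈ c \ F := by rw [← hu]; exact mem_iUnion.2 ⟨n, hn⟩
      exact this.1
    have hxF : x ∉ F := Set.disjoint_left.1 hj hx
    have : x ∈ ⋃ n, e n := by rw [hu]; exact ⟨hxc, hxF⟩
    obtain ⟨n, hn⟩ := mem_iUnion.1 this
    by_cases hnj : n % (k+1) = j
    · exact mem_iUnion.2 ⟨⟨n, hnj⟩, hn⟩
    · exfalso
      rw [mem_closure_iff] at hx
      obtain ⟨y, hy1, hy2⟩ := hx (e n) (ho n) hn
      obtain ⟨⟨m, hm⟩, hy3⟩ := mem_iUnion.1 hy2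
      have hnm : n ≠ m := by
        rintro rfl
        exact hnj hm
      exact Set.disjoint_left.1 (hd hnm) hy1 hy3
  have hUc : IsClosed (U j) := by
    rw [← closure_eq_iff_isClosed]
    exact Subset.antisymm hsub subset_closure
  let φ : ℕ → ℕ := fun i => j + i * (k+1)
  have hφ : ∀ i, φ i % (k+1) = j := by
    intro i
    simp only [φ]
    rw [Nat.add_mul_mod_self_right]
    exact Nat.mod_eq_of_lt j.2
  have hφi : Injective φ := by
    intro i i' h
    simp only [φ] at h
    have h2 : i * (k+1) = i' * (k+1) := by omega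
    exact Nat.eq_of_mul_eq_mul_right (Nat.succ_pos k) h2
  have hφs : ∀ n, n % (k+1) = j → ∃ i, φ i = n := by
    intro n hn
    refine ⟨n / (k+1), ?_⟩
    simp only [φ]
    rw [← hn, mul_comm]
    exact Nat.mod_add_div n (k+1)
  apply no_partition hS (fun i => match i with
    | 0 => e (φ 0) ∪ (U j)ᶜ
    | i+1 => e (φ (i+1)))
  · intro i
    cases i with
    | zero => exact (ho _).union hUc.isOpen_compl
    | succ i => exact ho _
  · intro i
    cases i with
    | zero => exact (hne _).inl
    | succ i => exact hne _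
  · have hin : ∀ i, e (φ i) ⊆ U j := fun i => by
      intro x hx
      exact mem_iUnion.2 ⟨⟨φ i, hφ i⟩, hx⟩
    have key : ∀ i, Disjoint (e (φ 0) ∪ (U j)ᶜ) (e (φ (i+1))) := by
      intro i
      rw [disjoint_union_left]
      refine ⟨hd (fun h => ?_), ?_⟩
      · have := hφi h
        omega
      · exact (disjoint_compl_left).mono_right (hin _)
    intro i i' hii
    cases i with
    | zero =>
      cases i' with
      | zero => exact absurd rfl hii
      | succ i' => exact key i'
    | succ i =>
      cases i' with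
      | zero => exact (key i).symm
      | succ i' =>
        apply hd
        intro h
        have := hφi h
        exact hii this
  · apply eq_univ_of_forall
    intro x
    by_cases hx : x ∈ U j
    · obtain ⟨⟨n, hn⟩, hxn⟩ := mem_iUnion.1 hx
      obtain ⟨i, rfl⟩ := hφs n hn
      refine mem_iUnion.2 ⟨i, ?_⟩
      cases i with
      | zero => exact Or.inl hxn
      | succ i => exact hxn
    · exact mem_iUnion.2 ⟨0, Or.inr hx⟩

/-- version in which the open sets may be empty, and the set removed is a point -/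
theorem no_puncture [T1Space S] [Infinite S] [ExtremallyDisconnected S] (hS : Thin S) (c : Set S)
    (hc : IsClopen c) (x : S) (hx : x ∈ c) (e : ℕ → Set S) (ho : ∀ n, IsClopen (e n))
    (hd : Pairwise (Disjoint on e)) (hu : ⋃ n, e n = c \ {x}) : False := by
  classical
  let J : Set ℕ := {n | (e n).Nonempty}
  have hJ : J.Infinite := by
    intro hJf
    apply not_open_singleton hS x
    have h1 : ⋃ n, e n = ⋃ n ∈ J, e n := by
      ext y
      simp only [mem_iUnion]
      constructor
      · rintro ⟨n, hn⟩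
        exact ⟨n, ⟨y, hn⟩, hn⟩
      · rintro ⟨n, -, hn⟩
        exact ⟨n, hn⟩
    have h2 : IsClosed (⋃ n ∈ J, e n) := hJf.isClosed_biUnion fun n _ => (ho n).isClosed
    rw [← h1, hu] at h2
    have h3 : ({x} : Set S) = c \ (c \ {x}) := by
      rw [sdiff_sdiff_right_self]
      ext y
      constructor
      · intro hy
        rw [mem_singleton_iff.1 hy]
        exact ⟨hx, rfl⟩
      · intro hy
        exact hy.2
    rw [h3]
    exact hc.isOpen.sdiff h2
  have : Infinite J := hJ.to_subtype
  let φ := Nat.orderEmbeddingOfSet J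
  apply no_partition_fin hS c hc {x} (finite_singleton x) (fun i => e (φ i))
  · exact fun i => (ho _).isOpen
  · intro i
    have : φ i ∈ range φ := ⟨i, rfl⟩
    rw [Nat.orderEmbeddingOfSet_range] at this
    exact this
  · intro i j hij
    exact hd (fun h => hij (φ.injective h))
  · rw [← hu]
    ext y
    simp only [mem_iUnion]
    constructor
    · rintro ⟨i, hi⟩
      exact ⟨_, hi⟩
    · rintro ⟨n, hn⟩
      have hnJ : n ∈ J := ⟨y, hn⟩
      have : n ∈ range φ := by
        rw [Nat.orderEmbeddingOfSet_range]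
        exact hnJ
      obtain ⟨i, rfl⟩ := this
      exact ⟨i, hn⟩

/-- Main step for extremally disconnected Hausdorff spaces: finitely many isolated points. -/
theorem isol_finite [T1Space S] [Infinite S] [ExtremallyDisconnected S] (hS : Thin S)
    (c : ℕ → Set S) (hc : ∀ n, IsClopen (c n)) (hd : Pairwise (Disjoint on c))
    (hne : (c 0).Nonempty) : (isol (⋃ n, c n)ᶜ).Finite := by
  by_contra hinf
  have hinf : (isol (⋃ n, c n)ᶜ).Infinite := hinf
  set Z : Set S := (⋃ n, c n)ᶜ with hZ
  have hZc : IsClosed Z := (isOpen_iUnion fun n => (hc n).isOpen).isClosed_compl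
  have hZn : ∀ n, Disjoint Z (c n) := by
    intro n
    rw [Set.disjoint_left]
    intro z hz hz'
    exact hz (mem_iUnion.2 ⟨n, hz'⟩)
  obtain ⟨x, hx⟩ := hne
  let f0 := hinf.natEmbedding
  let f : ℕ → S := fun n => (f0 n : S)
  have hfi : Injective f := fun n m h => f0.injective (Subtype.ext h)
  have hfZ : ∀ n, f n ∈ isol Z := fun n => (f0 n).2
  have hfd : DSeq f := by
    intro n
    obtain ⟨-, O, h0, h1, h2⟩ := hfZ n
    exact ⟨O, h0, h1, fun m hm => hfi (h2 ⟨hm, (hfZ m).1⟩)⟩
  have hfsub : range f ⊆ Z := by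
    rintro _ ⟨n, rfl⟩
    exact (hfZ n).1
  have hclf : closure (range f) ⊆ Z := hZc.closure_subset_iff.2 hfsub
  have hxZ : x ∉ Z := fun h => Set.disjoint_left.1 (hZn 0) h hx
  have hxf : x ∉ closure (range f) := fun h => hxZ (hclf h)
  set P : Set S := Z \ closure (range f) with hP
  have hPcl : closure P ⊆ Z := hZc.closure_subset_iff.2 sdiff_subset
  have s1 : Disjoint P (closure (range f)) := disjoint_sdiff_left
  have s2 : Disjoint (closure P) (range f) := by
    rw [Set.disjoint_right]
    rintro _ ⟨n, rfl⟩ hcl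
    obtain ⟨-, O, h0, h1, h2⟩ := hfZ n
    rw [mem_closure_iff] at hcl
    obtain ⟨z, hz1, hz2⟩ := hcl O h0 h1
    have : z = f n := h2 ⟨hz1, hz2.1⟩
    rw [this] at hz2
    exact hz2.2 (subset_closure ⟨n, rfl⟩)
  have s1' : Disjoint P (closure (range (cons x f))) := by
    rw [range_cons, closure_union, closure_singleton, disjoint_union_right]
    refine ⟨s1, ?_⟩
    rw [disjoint_singleton_right]
    exact fun h => hxZ h.1
  have s2' : Disjoint (closure P) (range (cons x f)) := by
    rw [range_cons, disjoint_union_right]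
    refine ⟨s2, ?_⟩
    rw [disjoint_singleton_right]
    exact fun h => hxZ (hPcl h)
  obtain ⟨h, hh⟩ := hS _ _ (glueSep s1 s2 s1' s2' ⟨Homeomorph.refl _⟩ (hfd.homeo (hfd.cons hxf)))
  have hclX : closure (P ∪ range f) = Z := by
    apply Subset.antisymm
    · rw [closure_union]
      exact union_subset hPcl hclf
    · intro z hz
      by_cases hz' : z ∈ closure (range f)
      · exact closure_mono subset_union_right hz'
      · exact subset_closure (Or.inl ⟨hz, hz'⟩)
  have hclX' : closure (P ∪ range (cons x f)) = Z ∪ {x} := by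
    rw [range_cons, ← union_assoc, closure_union, hclX, closure_singleton]
  have hhZ : h '' Z = Z ∪ {x} := by
    rw [← hclX, h.image_closure, hh, hclX', hclX]
  have hhA : h '' (⋃ n, c n) = (⋃ n, c n) \ {x} := by
    have : (⋃ n, c n) = Zᶜ := by rw [hZ, compl_compl]
    rw [this, image_compl_eq h.bijective, hhZ, compl_union]
    rfl
  apply no_puncture hS (c 0) (hc 0) x hx (fun n => c 0 ∩ h '' c n)
  · intro n
    refine (hc 0).inter ⟨h.isClosedMap _ (hc n).isClosed, h.isOpenMap _ (hc n).isOpen⟩
  · intro n m hnm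
    apply Disjoint.mono inter_subset_right inter_subset_right
    exact (disjoint_image_iff h.injective).2 (hd hnm)
  · rw [← inter_iUnion, ← image_iUnion, hhA]
    ext y
    constructor
    · rintro ⟨h1, h2, h3⟩
      exact ⟨h1, h3⟩
    · rintro ⟨h1, h2⟩
      exact ⟨h1, mem_iUnion.2 ⟨0, h1⟩, h2⟩

theorem no_ed [T2Space S] [Infinite S] [ExtremallyDisconnected S] (hS : Thin S) : False := by
  classical
  obtain ⟨U, hUi, hUo, hUd⟩ := exists_seq_infinite_isOpen_pairwise_disjoint S
  -- a double sequence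
  let V : ℕ → ℕ → Set S := fun i j => U (Nat.pair i j)
  have hVo : ∀ i j, IsOpen (V i j) := fun i j => hUo _
  have hVd : ∀ i j i' j', (i, j) ≠ (i', j') → Disjoint (V i j) (V i' j') := by
    intro i j i' j' hne
    apply hUd
    intro h
    rw [Nat.pair_eq_pair] at h
    exact hne (by rw [h.1, h.2])
  let W : ℕ → Set S := fun i => ⋃ j, V i j
  have hWo : ∀ i, IsOpen (W i) := fun i => isOpen_iUnion fun j => hVo i j
  have hWd : ∀ i i', i ≠ i' → Disjoint (W i) (W i') := by
    intro i i' hne
    rw [disjoint_iUnion_left]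
    intro j
    rw [disjoint_iUnion_right]
    intro j'
    exact hVd _ _ _ _ (fun h => hne (congrArg Prod.fst h))
  let c : ℕ → Set S := fun i => closure (W i)
  have hcc : ∀ i, IsClopen (c i) := fun i =>
    ⟨isClosed_closure, ExtremallyDisconnected.open_closure _ (hWo i)⟩
  have hcd : Pairwise (Disjoint on c) := by
    intro i i' hne
    exact ExtremallyDisconnected.disjoint_closure_of_disjoint_isOpen (hWd i i' hne)
      (hWo i) (hWo i')
  have hne : ∀ i j, (V i j).Nonempty := fun i j => (hUi _).nonempty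
  choose v hv using hne
  set d : ℕ → S := fun i => v i 0 with hddef
  set e : ℕ → S := fun j => v 0 j with hedef
  have hdc : ∀ i, d i ∈ c i := fun i => subset_closure (mem_iUnion.2 ⟨0, hv i 0⟩)
  have hec : ∀ j, e j ∈ c 0 := fun j => subset_closure (mem_iUnion.2 ⟨j, hv 0 j⟩)
  have hdD : DSeq d := DSeq.of_disj (fun i => (hcc i).isOpen) hcd hdc
  have heD : DSeq e := DSeq.of_disj (fun j => hVo 0 j)
    (fun j j' hne => hVd _ _ _ _ (fun h => hne (congrArg Prod.snd h))) (fun j => hv 0 j)
  set Z : Set S := (⋃ n, c n)ᶜ with hZ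
  have hZc : IsClosed Z := (isOpen_iUnion fun n => (hcc n).isOpen).isClosed_compl
  have hZn : ∀ n, Disjoint Z (c n) := by
    intro n
    rw [Set.disjoint_left]
    intro z hz hz'
    exact hz (mem_iUnion.2 ⟨n, hz'⟩)
  have hIfin : (isol Z).Finite := isol_finite hS c hcc hcd ⟨_, hdc 0⟩
  set Q : Set S := Z \ isol Z with hQ
  have hQZ : Q ⊆ Z := sdiff_subset
  have hQi : isol Q = ∅ := by
    rw [eq_empty_iff_forall_notMem]
    rintro x ⟨hxQ, O, hO, hxO, hOQ⟩
    apply hxQ.2
    refine ⟨hxQ.1, O \ isol Z, hO.sdiff hIfin.isClosed, ⟨hxO, hxQ.2⟩, ?_⟩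
    rintro z ⟨⟨hz1, hz2⟩, hz3⟩
    exact hOQ ⟨hz1, hz3, hz2⟩
  -- the crowded part minus the closure of the selection
  set P : Set S := Q \ closure (range d) with hP
  have hPZ : P ⊆ Z := sdiff_subset.trans hQZ
  have hPcl : closure P ⊆ Z := hZc.closure_subset_iff.2 hPZ
  have hPi : isol P = ∅ := by
    rw [eq_empty_iff_forall_notMem]
    rintro x ⟨hxP, O, hO, hxO, hOP⟩
    have : x ∈ isol Q := by
      refine ⟨hxP.1, O \ closure (range d), hO.sdiff isClosed_closure, ⟨hxO, hxP.2⟩, ?_⟩
      rintro z ⟨⟨hz1, hz2⟩, hz3⟩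
      exact hOP ⟨hz1, hz3, hz2⟩
    rw [hQi] at this
    exact this
  have hdA : ∀ z, z ∈ range d → z ∉ Z := by
    rintro _ ⟨n, rfl⟩ hz
    exact Set.disjoint_left.1 (hZn n) hz (hdc n)
  have hecl : closure (range e) ⊆ c 0 := by
    apply (hcc 0).isClosed.closure_subset_iff.2
    rintro _ ⟨n, rfl⟩
    exact hec n
  have s1 : Disjoint P (closure (range e)) := (hZn 0).mono hPZ hecl
  have s2 : Disjoint (closure P) (range e) :=
    (hZn 0).mono hPcl (subset_closure.trans hecl)
  have s1' : Disjoint P (closure (range d)) := disjoint_sdiff_left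
  have s2' : Disjoint (closure P) (range d) := by
    rw [Set.disjoint_right]
    intro z hz hz'
    exact hdA z hz (hPcl hz')
  obtain ⟨h, hh⟩ := hS _ _ (glueSep s1 s2 s1' s2' ⟨Homeomorph.refl _⟩ (heD.homeo hdD))
  have hhe : h '' range e = range d := by
    have h1 := isol_image h (P ∪ range e)
    rwa [hh, isol_union s1 s2, isol_union s1' s2', hPi, heD.isol, hdD.isol, empty_union,
      empty_union] at h1
  have hhP : ∀ z ∈ P, ∃ y ∈ P, h y = z := by
    intro z hz
    have : z ∈ h '' (P ∪ range e) := by rw [hh]; exact Or.inl hz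
    obtain ⟨y, hy | hy, hyz⟩ := this
    · exact ⟨y, hy, hyz⟩
    · exfalso
      have : h y ∈ range d := by rw [← hhe]; exact ⟨y, hy, rfl⟩
      rw [hyz] at this
      exact hdA z this (hPZ hz)
  set C : Set S := h '' c 0 with hC
  have hCc : IsClopen C := ⟨h.isClosedMap _ (hcc 0).isClosed, h.isOpenMap _ (hcc 0).isOpen⟩
  have hdC : ∀ n, d n ∈ C := by
    intro n
    have : d n ∈ h '' range e := by rw [hhe]; exact ⟨n, rfl⟩
    obtain ⟨y, ⟨m, rfl⟩, hy⟩ := this
    exact ⟨_, hec m, hy⟩
  have hCP : Disjoint C P := by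
    rw [Set.disjoint_left]
    rintro _ ⟨y, hy, rfl⟩ hz
    obtain ⟨y', hy', he⟩ := hhP _ hz
    have : y' = y := h.injective he
    subst this
    exact Set.disjoint_left.1 (hZn 0) (hPZ hy') hy
  have hCZ : C ∩ Z ⊆ closure (range d) ∪ isol Z := by
    rintro z ⟨hz1, hz2⟩
    by_cases hz3 : z ∈ isol Z
    · exact Or.inr hz3
    · left
      by_contra hz4
      exact Set.disjoint_left.1 hCP hz1 ⟨⟨hz2, hz3⟩, hz4⟩
  -- a second selection
  have hex : ∀ n, ∃ y, y ∈ C ∩ c n ∧ y ≠ d n := fun n => by
    obtain ⟨y, hy, hne⟩ := exists_ne_mem hS (hCc.isOpen.inter (hcc n).isOpen) ⟨hdC n, hdc n⟩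
    exact ⟨y, hy, hne⟩
  choose d' hd'1 hd'2 using hex
  have hsep : ∀ n, ∃ u v : Set S, IsOpen u ∧ IsOpen v ∧ d n ∈ u ∧ d' n ∈ v ∧ Disjoint u v :=
    fun n => t2_separation (hd'2 n).symm
  choose u0 v0 hu0 hv0 hdu0 hdv0 huv0 using hsep
  let u : ℕ → Set S := fun n => u0 n ∩ c n
  let v1 : ℕ → Set S := fun n => v0 n ∩ c n
  have huo : ∀ n, IsOpen (u n) := fun n => (hu0 n).inter (hcc n).isOpen
  have hvo : ∀ n, IsOpen (v1 n) := fun n => (hv0 n).inter (hcc n).isOpen
  have hdu : ∀ n, d n ∈ u n := fun n => ⟨hdu0 n, hdc n⟩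
  have hdv : ∀ n, d' n ∈ v1 n := fun n => ⟨hdv0 n, (hd'1 n).2⟩
  have huv : ∀ n m, Disjoint (u n) (v1 m) := by
    intro n m
    by_cases hnm : n = m
    · subst hnm
      exact (huv0 n).mono inter_subset_left inter_subset_left
    · exact (hcd hnm).mono inter_subset_right inter_subset_right
  have huv' : Disjoint (⋃ n, u n) (⋃ n, v1 n) := by
    rw [disjoint_iUnion_left]
    intro n
    rw [disjoint_iUnion_right]
    exact fun m => huv n m
  have hclD : Disjoint (closure (range d)) (closure (⋃ n, v1 n)) := by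
    have := ExtremallyDisconnected.disjoint_closure_of_disjoint_isOpen huv'
      (isOpen_iUnion huo) (isOpen_iUnion hvo)
    apply this.mono_left
    apply closure_mono
    rintro _ ⟨n, rfl⟩
    exact mem_iUnion.2 ⟨n, hdu n⟩
  -- pigeonhole
  obtain ⟨k, hk⟩ : ∃ k, k = hIfin.toFinset.card := ⟨_, rfl⟩
  let M : Fin (k+1) → Set S := fun j => ⋃ n : {n : ℕ // n % (k+1) = j}, v1 n
  have hMo : ∀ j, IsOpen (M j) := fun j => isOpen_iUnion fun n => hvo n
  have hMd : ∀ i j, i ≠ j → Disjoint (M i) (M j) := by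
    intro i j hij
    rw [disjoint_iUnion_left]
    rintro ⟨n, hn⟩
    rw [disjoint_iUnion_right]
    rintro ⟨m, hm⟩
    apply (hcd _).mono inter_subset_right inter_subset_right
    rintro rfl
    exact hij (Fin.ext (hn.symm.trans hm))
  have hexM : ∃ j, Disjoint (closure (M j)) (isol Z) := by
    by_contra hcon
    push Not at hcon
    have : ∀ j, ∃ x, x ∈ closure (M j) ∧ x ∈ hIfin.toFinset := by
      intro j
      obtain ⟨x, hx1, hx2⟩ := Set.not_disjoint_iff.1 (hcon j)
      exact ⟨x, hx1, by simpa using hx2⟩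
    choose f hf1 hf2 using this
    have hcard : hIfin.toFinset.card < (Finset.univ : Finset (Fin (k+1))).card := by
      rw [Finset.card_univ, Fintype.card_fin, hk]
      omega
    obtain ⟨i, -, j, -, hij, hfij⟩ :=
      Finset.exists_ne_map_eq_of_card_lt_of_maps_to hcard (fun j _ => hf2 j)
    have hdis := ExtremallyDisconnected.disjoint_closure_of_disjoint_isOpen (hMd i j hij)
      (hMo i) (hMo j)
    exact Set.disjoint_left.1 hdis (hf1 i) (by rw [hfij]; exact hf1 j)
  obtain ⟨j, hj⟩ := hexM
  let φ : ℕ → ℕ := fun i => j + i * (k+1)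
  have hφ : ∀ i, φ i % (k+1) = j := by
    intro i
    simp only [φ]
    rw [Nat.add_mul_mod_self_right]
    exact Nat.mod_eq_of_lt j.2
  have hφi : Injective φ := by
    intro i i' h
    simp only [φ] at h
    have h2 : i * (k+1) = i' * (k+1) := by omega
    exact Nat.eq_of_mul_eq_mul_right (Nat.succ_pos k) h2
  let d'' : ℕ → S := d' ∘ φ
  have hd''M : ∀ i, d'' i ∈ M j := fun i => mem_iUnion.2 ⟨⟨φ i, hφ i⟩, hdv _⟩
  have hd''D : DSeq d'' := DSeq.of_disj (U := fun i => c (φ i)) (fun i => (hcc _).isOpen)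
    (fun i i' hne => hcd (fun h => hne (hφi h))) (fun i => (hd'1 _).2)
  have hd''c : IsClosed (range d'') := by
    rw [← closure_eq_iff_isClosed]
    apply Subset.antisymm _ subset_closure
    intro x hx
    have hxC : x ∈ C := by
      apply hCc.isClosed.closure_subset_iff.2 _ hx
      rintro _ ⟨i, rfl⟩
      exact (hd'1 _).1
    have hxM : x ∈ closure (M j) := by
      apply closure_mono _ hx
      rintro _ ⟨i, rfl⟩
      exact hd''M i
    have hxv : x ∈ closure (⋃ n, v1 n) := by
      apply closure_mono _ hxM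
      intro y hy
      obtain ⟨n, hn⟩ := mem_iUnion.1 hy
      exact mem_iUnion.2 ⟨_, hn⟩
    have hxZ : x ∉ Z := by
      intro hxZ
      rcases hCZ ⟨hxC, hxZ⟩ with h1 | h1
      · exact Set.disjoint_left.1 hclD h1 hxv
      · exact Set.disjoint_left.1 hj hxM h1
    have hxA : x ∈ ⋃ n, c n := by
      by_contra hxA
      exact hxZ hxA
    obtain ⟨n, hn⟩ := mem_iUnion.1 hxA
    -- in `c n` the set meets `range d''` in at most one point
    by_contra hxr
    rw [mem_closure_iff] at hx
    obtain ⟨y, hy1, ⟨i, rfl⟩⟩ := hx (c n) (hcc n).isOpen hn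
    have hni : φ i = n := by
      by_contra hne
      exact Set.disjoint_left.1 (hcd hne) (hd'1 _).2 hy1
    have hxne : x ≠ d'' i := fun h => hxr ⟨i, h.symm⟩
    obtain ⟨y, hy1, ⟨i', rfl⟩⟩ := hx (c n ∩ {d'' i}ᶜ)
      ((hcc n).isOpen.inter isClosed_singleton.isOpen_compl) ⟨hn, hxne⟩
    have hni' : φ i' = n := by
      by_contra hne
      exact Set.disjoint_left.1 (hcd hne) (hd'1 _).2 hy1.1
    have : i' = i := hφi (hni'.trans hni.symm)
    subst this
    exact hy1.2 rfl
  -- hence every discrete sequence is closed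
  obtain ⟨g, hg⟩ := hS _ _ (hd''D.homeo hdD)
  have hdcl : IsClosed (range d) := by
    rw [← hg]
    exact g.isClosedMap _ hd''c
  have hfin : (C ∩ Z).Finite := by
    apply hIfin.subset
    intro z hz
    rcases hCZ hz with h1 | h1
    · rw [hdcl.closure_eq] at h1
      exact absurd hz.2 (hdA z h1)
    · exact h1
  apply no_partition_fin hS C hCc (C ∩ Z) hfin (fun n => C ∩ c n)
  · exact fun n => hCc.isOpen.inter (hcc n).isOpen
  · exact fun n => ⟨d n, hdC n, hdc n⟩
  · intro n m hnm
    exact (hcd hnm).mono inter_subset_right inter_subset_right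
  · rw [← inter_iUnion]
    ext y
    constructor
    · rintro ⟨h1, h2⟩
      exact ⟨h1, fun h3 => h3.2 h2⟩
    · rintro ⟨h1, h2⟩
      refine ⟨h1, ?_⟩
      by_contra h3
      exact h2 ⟨h1, h3⟩

end alpha



section beta

variable {S : Type u} [TopologicalSpace S]

def RO (a : Set S) : Prop := interior (closure a) = a

theorem RO.isOpen {a : Set S} (h : RO a) : IsOpen a := by
  rw [← h]; exact isOpen_interior

theorem RO.image {a : Set S} (h : RO a) (g : S ≃ₜ S) : RO (g '' a) := by
  unfold RO
  rw [← g.image_closure, ← g.image_interior, h]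

theorem RO.inter {a b : Set S} (ha : RO a) (hb : RO b) : RO (a ∩ b) := by
  apply Subset.antisymm
  · intro x hx
    constructor
    · rw [← ha]
      exact interior_mono (closure_mono inter_subset_left) hx
    · rw [← hb]
      exact interior_mono (closure_mono inter_subset_right) hx
  · exact (ha.isOpen.inter hb.isOpen).subset_interior_iff.2 subset_closure

theorem RO.preimage {a : Set S} (h : RO a) (g : S ≃ₜ S) : RO (g ⁻¹' a) := by
  have := h.image g.symm
  rwa [g.image_symm] at this

theorem RO.compl_closure (a : Set S) (ha : IsOpen a) : RO (closure a)ᶜ := by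
  unfold RO
  rw [closure_compl, interior_compl]
  congr 1
  apply Subset.antisymm
  · exact isClosed_closure.closure_subset_iff.2 interior_subset
  · exact closure_mono (ha.subset_interior_iff.2 subset_closure)

theorem RO.of (a : Set S) : RO (interior (closure a)) := by
  unfold RO
  exact interior_closure_idem

/-- If a regular open set of a thin space is disconnected then the space is extremally
disconnected. -/
theorem ed_of_disconnected (hS : Thin S) (a a1 a2 : Set S) (ha : RO a) (h1 : IsOpen a1)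
    (h2 : IsOpen a2) (hne1 : a1.Nonempty) (hne2 : a2.Nonempty) (hdis : Disjoint a1 a2)
    (hun : a1 ∪ a2 = a) : ExtremallyDisconnected S := by
  have hcl12 : Disjoint (closure a1) a2 := hdis.closure_left h2
  have hcl21 : Disjoint a1 (closure a2) := hdis.closure_right h1
  have ra : ∀ b, b ⊆ a → interior (closure b) ⊆ a := by
    intro b hb
    rw [← ha]
    exact interior_mono (closure_mono hb)
  have r1 : RO a1 := by
    apply Subset.antisymm
    · intro x hx
      have hxa : x ∈ a := ra a1 (by rw [← hun]; exact subset_union_left) hx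
      rw [← hun] at hxa
      rcases hxa with h | h
      · exact h
      · exact absurd h (Set.disjoint_left.1 hcl12 (interior_subset hx))
    · exact h1.subset_interior_iff.2 subset_closure
  have r2 : RO a2 := by
    apply Subset.antisymm
    · intro x hx
      have hxa : x ∈ a := ra a2 (by rw [← hun]; exact subset_union_right) hx
      rw [← hun] at hxa
      rcases hxa with h | h
      · exact absurd (interior_subset hx) (Set.disjoint_left.1 hcl21 h)
      · exact h
    · exact h2.subset_interior_iff.2 subset_closure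
  obtain ⟨x, hx⟩ := hne1
  obtain ⟨y, hy⟩ := hne2
  obtain ⟨g, hg⟩ := homog hS x y
  set W : Set S := a1 ∩ g ⁻¹' a2 with hW
  have rW : RO W := r1.inter (r2.preimage g)
  have hxW : x ∈ W := ⟨hx, by simp only [mem_preimage, hg]; exact hy⟩
  have key : ∀ V : Set S, RO V → V ⊆ W → W ⊆ V ∪ (closure V)ᶜ := by
    intro V rV hVW
    set V' : Set S := W ∩ (closure V)ᶜ with hV'
    have rV' : RO V' := rW.inter (RO.compl_closure V rV.isOpen)
    have hd1 : Disjoint V V' := by
      rw [Set.disjoint_left]
      intro z hz hz'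
      exact hz'.2 (subset_closure hz)
    have hV1 : V ⊆ a1 := hVW.trans inter_subset_left
    have hV2 : g '' V' ⊆ a2 := by
      rintro _ ⟨z, hz, rfl⟩
      exact hz.1.2
    have hd2 : Disjoint V (g '' V') := hdis.mono hV1 hV2
    obtain ⟨k, hk⟩ := hS _ _ (glue2 rV.isOpen rV'.isOpen rV.isOpen (rV'.image g).isOpen hd1 hd2
      ⟨Homeomorph.refl V⟩ (restr g V'))
    have hclA : interior (closure (V ∪ V')) = W := by
      apply Subset.antisymm
      · calc interior (closure (V ∪ V')) ⊆ interior (closure W) :=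
              interior_mono (closure_mono (union_subset hVW inter_subset_left))
          _ = W := rW
      · apply rW.isOpen.subset_interior_iff.2
        intro z hz
        rw [closure_union]
        by_cases hzV : z ∈ closure V
        · exact Or.inl hzV
        · exact Or.inr (subset_closure ⟨hz, hzV⟩)
    have hclA' : interior (closure (V ∪ g '' V')) ⊆ V ∪ g '' V' := by
      intro z hz
      have hza : z ∈ a := ra _ (by
        rw [← hun]; exact union_subset_union hV1 hV2) hz
      rw [← hun] at hza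
      rw [closure_union] at hz
      rcases hza with h | h
      · left
        rw [← rV]
        have ho : IsOpen (interior (closure V ∪ closure (g '' V')) ∩ a1) :=
          isOpen_interior.inter h1
        apply mem_interior.2
        refine ⟨_, ?_, ho, ⟨hz, h⟩⟩
        rintro w ⟨hw1, hw2⟩
        rcases interior_subset hw1 with h3 | h3
        · exact h3
        · exact absurd (closure_mono hV2 h3) (Set.disjoint_left.1 hcl21 hw2)
      · right
        rw [← rV'.image g]
        have ho : IsOpen (interior (closure V ∪ closure (g '' V')) ∩ a2) :=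
          isOpen_interior.inter h2
        apply mem_interior.2
        refine ⟨_, ?_, ho, ⟨hz, h⟩⟩
        rintro w ⟨hw1, hw2⟩
        rcases interior_subset hw1 with h3 | h3
        · exact absurd hw2 (Set.disjoint_left.1 hcl12 (closure_mono hV1 h3))
        · exact h3
    have hkW : k '' W ⊆ k '' (V ∪ V') := by
      rw [hk]
      rw [← hclA, k.image_interior, k.image_closure, hk]
      exact hclA'
    have hWV : W ⊆ V ∪ V' := (image_subset_image_iff k.injective).1 hkW
    intro z hz
    rcases hWV hz with h | h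
    · exact Or.inl h
    · exact Or.inr h.2
  constructor
  intro U hU
  rw [isOpen_iff_mem_nhds]
  intro z hz
  obtain ⟨m, hm⟩ := homog hS z x
  set V : Set S := interior (closure (m '' U ∩ W)) with hV
  have rV : RO V := RO.of _
  have hVW : V ⊆ W := by
    rw [← rW]
    exact interior_mono (closure_mono inter_subset_right)
  have hUV : m '' U ∩ W ⊆ V :=
    ((m.isOpenMap _ hU).inter rW.isOpen).subset_interior_iff.2 subset_closure
  have h2 : x ∈ closure V := by
    have h3 : x ∈ closure (m '' U) := by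
      rw [← m.image_closure]
      exact ⟨z, hz, hm⟩
    rw [mem_closure_iff] at h3 ⊢
    intro O hO hzO
    obtain ⟨w, hw⟩ := h3 (O ∩ W) (hO.inter rW.isOpen) ⟨hzO, hxW⟩
    exact ⟨w, hw.1.1, hUV ⟨hw.2, hw.1.2⟩⟩
  have h4 : x ∈ V := by
    rcases key V rV hVW hxW with h | h
    · exact h
    · exact absurd h2 h
  have h5 : m ⁻¹' V ∈ nhds z := by
    apply (rV.isOpen.preimage m.continuous).mem_nhds
    show m z ∈ V
    rw [hm]
    exact h4
  apply Filter.mem_of_superset h5
  intro w hw
  have h6 : m w ∈ closure (m '' U) :=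
    closure_mono inter_subset_left (interior_subset hw)
  rw [← m.image_closure] at h6
  obtain ⟨w', hw', he⟩ := h6
  rwa [← m.injective he]

theorem ro_preconnected (hS : Thin S) (hed : ¬ ExtremallyDisconnected S) (a : Set S)
    (ha : RO a) : IsPreconnected a := by
  rw [isPreconnected_iff_subset_of_disjoint]
  intro u v hu hv hauv hdis
  by_contra hcon
  push Not at hcon
  obtain ⟨h1, h2⟩ := hcon
  apply hed
  obtain ⟨x, hxa, hxu⟩ := not_subset.1 h1
  obtain ⟨y, hya, hyv⟩ := not_subset.1 h2
  refine ed_of_disconnected hS a (a ∩ u) (a ∩ v) ha (ha.isOpen.inter hu) (ha.isOpen.inter hv)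
    ⟨y, hya, ?_⟩ ⟨x, hxa, ?_⟩ ?_ ?_
  · rcases hauv hya with h | h
    · exact h
    · exact absurd h hyv
  · rcases hauv hxa with h | h
    · exact absurd h hxu
    · exact h
  · rw [Set.disjoint_left]
    intro z hz hz'
    have : z ∈ a ∩ (u ∩ v) := ⟨hz.1, hz.2, hz'.2⟩
    rw [hdis] at this
    exact this
  · rw [← inter_union_distrib_left]
    exact inter_eq_left.2 hauv

theorem frontier_ro {a : Set S} (ha : RO a) : (frontier a)ᶜ = a ∪ (closure a)ᶜ := by
  rw [frontier, ha.isOpen.interior_eq]
  ext z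
  simp only [mem_compl_iff, mem_sdiff, mem_union]
  tauto

/-- The set of isolated boundary points is finite. -/
theorem bd_isol_finite [T1Space S] [Infinite S] (hS : Thin S) (hed : ¬ ExtremallyDisconnected S)
    (a : Set S) (ha : RO a) (hne : a.Nonempty) (hne' : (closure a)ᶜ.Nonempty) :
    (isol (frontier a)).Finite := by
  by_contra hinf
  have hinf : (isol (frontier a)).Infinite := hinf
  set Z : Set S := frontier a with hZ
  have hZc : IsClosed Z := isClosed_frontier
  have hZa : Disjoint Z a := by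
    rw [Set.disjoint_left]
    intro z hz hz'
    have : z ∈ (frontier a)ᶜ := by rw [frontier_ro ha]; exact Or.inl hz'
    exact this hz
  obtain ⟨x, hx⟩ := hne
  let f0 := hinf.natEmbedding
  let f : ℕ → S := fun n => (f0 n : S)
  have hfi : Injective f := fun n m h => f0.injective (Subtype.ext h)
  have hfZ : ∀ n, f n ∈ isol Z := fun n => (f0 n).2
  have hfd : DSeq f := by
    intro n
    obtain ⟨-, O, h0, h1, h2⟩ := hfZ n
    exact ⟨O, h0, h1, fun m hm => hfi (h2 ⟨hm, (hfZ m).1⟩)⟩
  have hfsub : range f ⊆ Z := by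
    rintro _ ⟨n, rfl⟩
    exact (hfZ n).1
  have hclf : closure (range f) ⊆ Z := hZc.closure_subset_iff.2 hfsub
  have hxZ : x ∉ Z := fun h => Set.disjoint_left.1 hZa h hx
  have hxf : x ∉ closure (range f) := fun h => hxZ (hclf h)
  set P : Set S := Z \ closure (range f) with hP
  have hPcl : closure P ⊆ Z := hZc.closure_subset_iff.2 sdiff_subset
  have s1 : Disjoint P (closure (range f)) := disjoint_sdiff_left
  have s2 : Disjoint (closure P) (range f) := by
    rw [Set.disjoint_right]
    rintro _ ⟨n, rfl⟩ hcl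
    obtain ⟨-, O, h0, h1, h2⟩ := hfZ n
    rw [mem_closure_iff] at hcl
    obtain ⟨z, hz1, hz2⟩ := hcl O h0 h1
    have : z = f n := h2 ⟨hz1, hz2.1⟩
    rw [this] at hz2
    exact hz2.2 (subset_closure ⟨n, rfl⟩)
  have s1' : Disjoint P (closure (range (cons x f))) := by
    rw [range_cons, closure_union, closure_singleton, disjoint_union_right]
    refine ⟨s1, ?_⟩
    rw [disjoint_singleton_right]
    exact fun h => hxZ h.1
  have s2' : Disjoint (closure P) (range (cons x f)) := by
    rw [range_cons, disjoint_union_right]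
    refine ⟨s2, ?_⟩
    rw [disjoint_singleton_right]
    exact fun h => hxZ (hPcl h)
  obtain ⟨h, hh⟩ := hS _ _ (glueSep s1 s2 s1' s2' ⟨Homeomorph.refl _⟩ (hfd.homeo (hfd.cons hxf)))
  have hclX : closure (P ∪ range f) = Z := by
    apply Subset.antisymm
    · rw [closure_union]
      exact union_subset hPcl hclf
    · intro z hz
      by_cases hz' : z ∈ closure (range f)
      · exact closure_mono subset_union_right hz'
      · exact subset_closure (Or.inl ⟨hz, hz'⟩)
  have hclX' : closure (P ∪ range (cons x f)) = Z ∪ {x} := by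
    rw [range_cons, ← union_assoc, closure_union, hclX, closure_singleton]
  have hhZ : h '' Z = Z ∪ {x} := by
    rw [← hclX, h.image_closure, hh, hclX', hclX]
  have hhA : h '' (a ∪ (closure a)ᶜ) = (a ∪ (closure a)ᶜ) \ {x} := by
    rw [← frontier_ro ha, image_compl_eq h.bijective, hhZ, compl_union]
    rfl
  set b : Set S := (closure a)ᶜ with hb
  have rb : RO b := RO.compl_closure a ha.isOpen
  have hab : Disjoint a b := by
    rw [Set.disjoint_left]
    intro z hz hz'
    exact hz' (subset_closure hz)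
  have hxb : x ∉ b := Set.disjoint_left.1 hab hx
  have hax : IsOpen (a \ {x}) := ha.isOpen.sdiff isClosed_singleton
  have hpa : IsPreconnected (h '' a) :=
    (ro_preconnected hS hed a ha).image _ h.continuous.continuousOn
  have hpb : IsPreconnected (h '' b) :=
    (ro_preconnected hS hed b rb).image _ h.continuous.continuousOn
  have hsplit : ∀ z, z ∈ h '' a ∨ z ∈ h '' b ↔ z ∈ a \ {x} ∨ z ∈ b := by
    intro z
    have e : z ∈ h '' (a ∪ b) ↔ z ∈ (a ∪ b) \ {x} := by rw [hhA]
    rw [image_union] at e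
    constructor
    · intro hz
      have := e.1 hz
      rcases this.1 with h1 | h1
      · exact Or.inl ⟨h1, this.2⟩
      · exact Or.inr h1
    · rintro (hz | hz)
      · exact e.2 ⟨Or.inl hz.1, hz.2⟩
      · exact e.2 ⟨Or.inr hz, fun h => hxb (by rw [← mem_singleton_iff.1 h]; exact hz)⟩
  have hdis' : Disjoint (a \ {x}) b := hab.mono_left sdiff_subset
  have dich : ∀ r : Set S, IsPreconnected r → r ⊆ (a \ {x}) ∪ b → r ⊆ a \ {x} ∨ r ⊆ b := by
    intro r hr hsub
    rw [isPreconnected_iff_subset_of_disjoint] at hr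
    apply hr _ _ hax rb.isOpen hsub
    rw [hdis'.inter_eq, inter_empty]
  have hda := dich _ hpa (fun z hz => (hsplit z).1 (Or.inl hz))
  have hdb := dich _ hpb (fun z hz => (hsplit z).1 (Or.inr hz))
  obtain ⟨y, hya, hyx⟩ := exists_ne_mem hS ha.isOpen hx
  -- a \ {x} is the image of a regular open set
  have hfinal : ∀ r : Set S, RO r → h '' r = a \ {x} → False := by
    intro r hr he
    have h1 := hr.image h
    rw [he] at h1
    have h2 : x ∈ interior (closure (a \ {x})) := by
      apply mem_interior.2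
      refine ⟨a, ?_, ha.isOpen, hx⟩
      intro z hz
      by_cases hzx : z = x
      · subst hzx
        rw [mem_closure_iff]
        intro O hO hzO
        obtain ⟨w, hw, hwz⟩ := exists_ne_mem hS (hO.inter ha.isOpen) ⟨hzO, hz⟩
        exact ⟨w, hw.1, hw.2, hwz⟩
      · exact subset_closure ⟨hz, hzx⟩
    rw [h1] at h2
    exact h2.2 rfl
  obtain ⟨w, hw⟩ := hne'
  rcases hda with h1 | h1 <;> rcases hdb with h2 | h2
  · -- both in a \ {x}
    have := (hsplit w).2 (Or.inr hw)
    rcases this with h3 | h3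
    · exact Set.disjoint_left.1 hdis' (h1 h3) hw
    · exact Set.disjoint_left.1 hdis' (h2 h3) hw
  · apply hfinal a ha
    apply Subset.antisymm h1
    intro z hz
    rcases (hsplit z).2 (Or.inl hz) with h3 | h3
    · exact h3
    · exact absurd (h2 h3) (Set.disjoint_left.1 hdis' hz)
  · apply hfinal b rb
    apply Subset.antisymm h2
    intro z hz
    rcases (hsplit z).2 (Or.inl hz) with h3 | h3
    · exact absurd (h1 h3) (Set.disjoint_left.1 hdis' hz)
    · exact h3
  · have := (hsplit y).2 (Or.inl ⟨hya, hyx⟩)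
    rcases this with h3 | h3
    · exact Set.disjoint_left.1 hdis' ⟨hya, hyx⟩ (h1 h3)
    · exact Set.disjoint_left.1 hdis' ⟨hya, hyx⟩ (h2 h3)

theorem singHomeo (x y : S) : Nonempty (({x} : Set S) ≃ₜ ({y} : Set S)) := by
  refine ⟨{ toFun := fun _ => ⟨y, rfl⟩, invFun := fun _ => ⟨x, rfl⟩, left_inv := ?_,
            right_inv := ?_, continuous_toFun := continuous_const,
            continuous_invFun := continuous_const }⟩
  · rintro ⟨z, hz⟩
    exact Subtype.ext (by simpa using hz.symm)
  · rintro ⟨z, hz⟩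
    exact Subtype.ext (by simpa using hz.symm)

theorem pairHomeo [T1Space S] {x y z w : S} (hxy : x ≠ y) (hzw : z ≠ w) :
    Nonempty (({x} ∪ {y} : Set S) ≃ₜ ({z} ∪ {w} : Set S)) := by
  apply glueSep
  · rw [closure_singleton, disjoint_singleton]; exact hxy
  · rw [closure_singleton, disjoint_singleton]; exact hxy
  · rw [closure_singleton, disjoint_singleton]; exact hzw
  · rw [closure_singleton, disjoint_singleton]; exact hzw
  · exact singHomeo x z
  · exact singHomeo y w

theorem isol_pair [T1Space S] (x y : S) : isol ({x} ∪ {y} : Set S) = {x} ∪ {y} := by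
  apply Subset.antisymm (isol_subset _)
  intro z hz
  refine ⟨hz, ({x} ∪ {y} : Set S)ᶜ ∪ {z}, ?_, Or.inr rfl, ?_⟩
  · have : ({x} ∪ {y} : Set S)ᶜ ∪ {z} = (({x} ∪ {y} : Set S) \ {z})ᶜ := by
      ext w
      simp only [mem_union, mem_compl_iff, mem_singleton_iff, mem_sdiff]
      tauto
    rw [this]
    have hf : (({x} ∪ {y} : Set S) \ {z}).Finite :=
      ((finite_singleton x).union (finite_singleton y)).subset sdiff_subset
    exact hf.isClosed.isOpen_compl
  · rintro w ⟨hw | hw, hw'⟩
    · exact absurd hw' hw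
    · exact hw

/-- The boundary of a regular open set has an isolated point. -/
theorem bd_isol_nonempty [T1Space S] [Infinite S] (hS : Thin S)
    (hed : ¬ ExtremallyDisconnected S) (a : Set S) (ha : RO a) (hne : a.Nonempty)
    (hne' : (closure a)ᶜ.Nonempty) : (isol (frontier a)).Nonempty := by
  by_contra hemp
  rw [not_nonempty_iff_eq_empty] at hemp
  set Z : Set S := frontier a with hZ
  have hZc : IsClosed Z := isClosed_frontier
  have hZcompl : ∀ z, z ∈ Z ↔ ¬ (z ∈ a ∨ z ∈ (closure a)ᶜ) := by
    intro z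
    have : z ∈ (frontier a)ᶜ ↔ z ∈ a ∪ (closure a)ᶜ := by rw [frontier_ro ha]
    rw [mem_compl_iff, mem_union] at this
    rw [← this, not_not]
  obtain ⟨x, hx⟩ := hne
  obtain ⟨z, hz⟩ := hne'
  obtain ⟨y, hy, hyx⟩ := exists_ne_mem hS ha.isOpen hx
  have hxz : x ≠ z := by
    rintro rfl
    exact hz (subset_closure hx)
  have hxZ : x ∉ Z := fun h => (hZcompl x).1 h (Or.inl hx)
  have hyZ : y ∉ Z := fun h => (hZcompl y).1 h (Or.inl hy)
  have hzZ : z ∉ Z := fun h => (hZcompl z).1 h (Or.inr hz)
  have clpair : ∀ p q : S, closure ({p} ∪ {q} : Set S) = {p} ∪ {q} := by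
    intro p q
    rw [closure_union, closure_singleton, closure_singleton]
  have hsep : ∀ p q : S, p ∉ Z → q ∉ Z → Disjoint Z ({p} ∪ {q} : Set S) := by
    intro p q hp hq
    rw [disjoint_union_right, disjoint_singleton_right, disjoint_singleton_right]
    exact ⟨hp, hq⟩
  have s1 : Disjoint Z (closure ({x} ∪ {y} : Set S)) := by
    rw [clpair]; exact hsep _ _ hxZ hyZ
  have s2 : Disjoint (closure Z) ({x} ∪ {y} : Set S) := by
    rw [hZc.closure_eq]; exact hsep _ _ hxZ hyZ
  have s1' : Disjoint Z (closure ({x} ∪ {z} : Set S)) := by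
    rw [clpair]; exact hsep _ _ hxZ hzZ
  have s2' : Disjoint (closure Z) ({x} ∪ {z} : Set S) := by
    rw [hZc.closure_eq]; exact hsep _ _ hxZ hzZ
  obtain ⟨h, hh⟩ := hS _ _ (glueSep s1 s2 s1' s2' ⟨Homeomorph.refl _⟩
    (pairHomeo hyx.symm hxz))
  have hpair : h '' ({x} ∪ {y}) = {x} ∪ {z} := by
    have h1 := isol_image h (Z ∪ ({x} ∪ {y}))
    rwa [hh, isol_union s1 s2, isol_union s1' s2', hemp, empty_union, empty_union, isol_pair,
      isol_pair] at h1
  have hhZ : h '' Z = Z := by
    apply Subset.antisymm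
    · rintro _ ⟨w, hw, rfl⟩
      have : h w ∈ Z ∪ ({x} ∪ {z}) := by rw [← hh]; exact ⟨w, Or.inl hw, rfl⟩
      rcases this with h1 | h1
      · exact h1
      · exfalso
        rw [← hpair] at h1
        obtain ⟨w', hw', he⟩ := h1
        have := h.injective he
        subst this
        exact Set.disjoint_left.1 (hsep _ _ hxZ hyZ) hw hw'
    · intro w hw
      have : w ∈ h '' (Z ∪ ({x} ∪ {y})) := by rw [hh]; exact Or.inl hw
      obtain ⟨w', h1 | h1, rfl⟩ := this
      · exact ⟨w', h1, rfl⟩
      · exfalso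
        have : h w' ∈ ({x} ∪ {z} : Set S) := by rw [← hpair]; exact ⟨w', h1, rfl⟩
        exact Set.disjoint_left.1 (hsep _ _ hxZ hzZ) hw this
  have hhA : h '' (a ∪ (closure a)ᶜ) = a ∪ (closure a)ᶜ := by
    rw [← frontier_ro ha, image_compl_eq h.bijective]
    rw [← hZ, hhZ]
  have hpa : IsPreconnected (h '' a) :=
    (ro_preconnected hS hed a ha).image _ h.continuous.continuousOn
  have hab : Disjoint a (closure a)ᶜ := by
    rw [Set.disjoint_left]
    intro z hz hz'
    exact hz' (subset_closure hz)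
  rw [isPreconnected_iff_subset_of_disjoint] at hpa
  have hmem : ∀ w, w ∈ ({x} ∪ {z} : Set S) → w ∈ h '' a := by
    intro w hw
    rw [← hpair] at hw
    obtain ⟨w', hw', rfl⟩ := hw
    refine ⟨w', ?_, rfl⟩
    rcases hw' with h1 | h1
    · rw [mem_singleton_iff.1 h1]; exact hx
    · rw [mem_singleton_iff.1 h1]; exact hy
  have hdich := hpa a (closure a)ᶜ ha.isOpen isClosed_closure.isOpen_compl
    (by rw [← hhA]; exact image_mono subset_union_left)
    (by rw [hab.inter_eq, inter_empty])
  rcases hdich with h1 | h1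
  · exact Set.disjoint_left.1 hab (h1 (hmem z (Or.inr rfl))) hz
  · exact h1 (hmem x (Or.inl rfl)) (subset_closure hx)

/-- No infinite Hausdorff thin spaces. -/
theorem no_t2 [T2Space S] [Infinite S] (hS : Thin S) : False := by
  by_cases hed : ExtremallyDisconnected S
  · exact no_ed hS
  obtain ⟨U, hUi, hUo, hUd⟩ := exists_seq_infinite_isOpen_pairwise_disjoint S
  set a : Set S := interior (closure (U 0)) with ha
  have ra : RO a := RO.of _
  have hU0a : U 0 ⊆ a := (hUo 0).subset_interior_iff.2 subset_closure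
  have hane : a.Nonempty := (hUi 0).nonempty.mono hU0a
  have hcla : closure a ⊆ closure (U 0) := isClosed_closure.closure_subset_iff.2 interior_subset
  have hbne : (closure a)ᶜ.Nonempty := by
    obtain ⟨z, hz⟩ := (hUi 1).nonempty
    refine ⟨z, fun h => ?_⟩
    exact Set.disjoint_left.1 ((hUd (by norm_num : (0:ℕ) ≠ 1)).closure_left (hUo 1)) (hcla h) hz
  obtain ⟨p, hpK, O, hO, hpO, hOK⟩ := bd_isol_nonempty hS hed a ra hane hbne
  choose x hx using fun n => (hUi n).nonempty
  choose g hg using fun n => homog hS p (x n)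
  set w : Set S := ⋃ n, (U n ∩ g n '' a) with hw
  have hwo : IsOpen w := isOpen_iUnion fun n => (hUo n).inter ((g n).isOpenMap _ ra.isOpen)
  set a' : Set S := interior (closure w) with ha'
  have ra' : RO a' := RO.of _
  have hwa' : w ⊆ a' := hwo.subset_interior_iff.2 subset_closure
  have hcl : closure a' = closure w := by
    apply Subset.antisymm
    · exact isClosed_closure.closure_subset_iff.2 interior_subset
    · exact closure_mono hwa'
  have hwU : ∀ n, U n ∩ w ⊆ g n '' a := by
    rintro n z ⟨hz1, hz2⟩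
    obtain ⟨m, hm1, hm2⟩ := mem_iUnion.1 hz2
    by_cases hmn : n = m
    · rw [hmn]; exact hm2
    · exact absurd hm1 (Set.disjoint_left.1 (hUd hmn) hz1)
  have hclU : ∀ n, U n ∩ closure w ⊆ closure (g n '' a) := by
    rintro n z ⟨hz1, hz2⟩
    rw [mem_closure_iff] at hz2 ⊢
    intro O' hO' hzO'
    obtain ⟨y, hy1, hy2⟩ := hz2 (O' ∩ U n) (hO'.inter (hUo n)) ⟨hzO', hz1⟩
    exact ⟨y, hy1.1, hwU n ⟨hy1.2, hy2⟩⟩
  have haU : ∀ n, U n ∩ a' ⊆ g n '' a := by
    intro n
    rw [← ra.image (g n)]
    apply ((hUo n).inter ra'.isOpen).subset_interior_iff.2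
    rintro z ⟨hz1, hz2⟩
    exact hclU n ⟨hz1, interior_subset hz2⟩
  have hxcl : ∀ n, x n ∈ closure a' := by
    intro n
    rw [hcl, mem_closure_iff]
    intro O' hO' hzO'
    have h1 : x n ∈ closure (g n '' a) := by
      rw [← (g n).image_closure, ← hg n]
      exact ⟨p, frontier_subset_closure hpK, rfl⟩
    rw [mem_closure_iff] at h1
    obtain ⟨y, hy1, hy2⟩ := h1 (O' ∩ U n) (hO'.inter (hUo n)) ⟨hzO', hx n⟩
    exact ⟨y, hy1.1, mem_iUnion.2 ⟨n, hy1.2, hy2⟩⟩
  have hpa : p ∉ a := by
    intro h
    have : p ∈ (frontier a)ᶜ := by rw [frontier_ro ra]; exact Or.inl h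
    exact this hpK
  have hxa' : ∀ n, x n ∉ a' := by
    intro n h
    obtain ⟨q, hq, he⟩ := haU n ⟨hx n, h⟩
    rw [← hg n] at he
    rw [(g n).injective he] at hq
    exact hpa hq
  have hxfr : ∀ n, x n ∈ frontier a' := by
    intro n
    rw [frontier, ra'.isOpen.interior_eq]
    exact ⟨hxcl n, hxa' n⟩
  have hxis : ∀ n, x n ∈ isol (frontier a') := by
    intro n
    refine ⟨hxfr n, U n ∩ g n '' O, (hUo n).inter ((g n).isOpenMap _ hO), ⟨hx n, ?_⟩, ?_⟩
    · rw [← hg n]
      exact ⟨p, hpO, rfl⟩
    · rintro z ⟨⟨hz1, ⟨q, hq, rfl⟩⟩, hz2⟩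
      have h1 : g n q ∈ closure (g n '' a) := by
        apply hclU n
        rw [← hcl]
        exact ⟨hz1, frontier_subset_closure hz2⟩
      rw [← (g n).image_closure] at h1
      obtain ⟨q', hq', he⟩ := h1
      have hqq := (g n).injective he
      subst hqq
      have h2 : q' ∉ a := by
        intro hqa
        have h3 : g n q' ∈ a' := hwa' (mem_iUnion.2 ⟨n, hz1, ⟨q', hqa, rfl⟩⟩)
        rw [frontier, ra'.isOpen.interior_eq] at hz2
        exact hz2.2 h3
      have h4 : q' ∈ frontier a := by
        rw [frontier, ra.isOpen.interior_eq]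
        exact ⟨hq', h2⟩
      have h5 := hOK ⟨hq, h4⟩
      rw [mem_singleton_iff] at h5 ⊢
      rw [h5, hg n]
  have hane' : a'.Nonempty := by
    by_contra h
    rw [not_nonempty_iff_eq_empty] at h
    have := hxcl 0
    rw [h, closure_empty] at this
    exact this
  have hbne' : (closure a')ᶜ.Nonempty := by
    rw [nonempty_compl]
    intro h
    have h1 := ra'
    unfold RO at h1
    rw [h, interior_univ] at h1
    exact hxa' 0 (by rw [← h1]; trivial)
  have hfin := bd_isol_finite hS hed a' ra' hane' hbne'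
  have hxinj : Injective x := by
    intro n m h
    by_contra hne
    exact Set.disjoint_left.1 (hUd hne) (hx n) (by rw [h]; exact hx m)
  exact (infinite_range_of_injective hxinj) (hfin.subset (by
    rintro _ ⟨n, rfl⟩
    exact hxis n))

end beta



section gen

variable {S : Type u} [TopologicalSpace S]

/-- Every thin space is an R0 space. -/
theorem thin_r0 (hS : Thin S) : R0Space S := by
  classical
  constructor
  constructor
  intro d d' hdd'
  by_contra hcon
  set P : Set S := {z | z ⤳ d ∧ ¬ d ⤳ z} with hP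
  have hdP : d ∉ P := fun h => h.2 (specializes_refl d)
  have hd'P : d' ∉ P := fun h => hcon h.1
  have hup : ∀ O : Set S, IsOpen O → d' ∈ O → d ∈ O := fun O hO h =>
    (specializes_iff_forall_open.1 hdd') O hO h
  have hupP : ∀ O : Set S, IsOpen O → d ∈ O → P ⊆ O := fun O hO h z hz =>
    (specializes_iff_forall_open.1 hz.1) O hO h
  have hne : d ≠ d' := by
    rintro rfl
    exact hcon hdd'
  have hD : IsOpen (closure ({d} : Set S))ᶜ := isClosed_closure.isOpen_compl
  have hPD : ∀ z ∈ P, z ∈ (closure ({d} : Set S))ᶜ := fun z hz h =>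
    hz.2 (specializes_iff_mem_closure.2 h)
  have hdD : d ∉ (closure ({d} : Set S))ᶜ := fun h => h (subset_closure rfl)
  let X : Set S := {d} ∪ P
  let X' : Set S := {d'} ∪ P
  let f : X → X' := fun z =>
    if h : (z : S) = d then ⟨d', Or.inl rfl⟩ else ⟨z, Or.inr (z.2.resolve_left h)⟩
  let g : X' → X := fun z =>
    if h : (z : S) = d' then ⟨d, Or.inl rfl⟩ else ⟨z, Or.inr (z.2.resolve_left h)⟩
  have hfd : ∀ z : X, (z : S) = d → (f z : S) = d' := by
    intro z hz
    simp only [f, hz, dite_true]
  have hfP : ∀ z : X, (z : S) ≠ d → (f z : S) = z := by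
    intro z hz
    simp only [f, hz, dite_false]
  have hgd : ∀ z : X', (z : S) = d' → (g z : S) = d := by
    intro z hz
    simp only [g, hz, dite_true]
  have hgP : ∀ z : X', (z : S) ≠ d' → (g z : S) = z := by
    intro z hz
    simp only [g, hz, dite_false]
  have hhom : Nonempty (X ≃ₜ X') := by
    refine ⟨{ toFun := f, invFun := g, left_inv := ?_, right_inv := ?_,
              continuous_toFun := ?_, continuous_invFun := ?_ }⟩
    · intro z
      apply Subtype.ext
      by_cases hz : (z : S) = d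
      · rw [hgd _ (hfd _ hz), hz]
      · have h1 := hfP z hz
        have h2 : (f z : S) ≠ d' := by
          rw [h1]
          intro h
          exact hd'P (by rw [← h]; exact z.2.resolve_left hz)
        rw [hgP _ h2, h1]
    · intro z
      apply Subtype.ext
      by_cases hz : (z : S) = d'
      · rw [hfd _ (hgd _ hz), hz]
      · have h1 := hgP z hz
        have h2 : (g z : S) ≠ d := by
          rw [h1]
          intro h
          exact hdP (by rw [← h]; exact z.2.resolve_left hz)
        rw [hfP _ h2, h1]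
    · rw [Topology.IsInducing.subtypeVal.continuous_iff]
      rw [continuous_def]
      intro O hO
      by_cases hO' : d' ∈ O
      · have : (Subtype.val ∘ f) ⁻¹' O = univ := by
          apply eq_univ_of_forall
          intro z
          show (f z : S) ∈ O
          by_cases hz : (z : S) = d
          · rw [hfd _ hz]; exact hO'
          · rw [hfP _ hz]
            exact hupP O hO (hup O hO hO') (z.2.resolve_left hz)
        rw [this]
        exact isOpen_univ
      · have : (Subtype.val ∘ f) ⁻¹' O =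
            Subtype.val ⁻¹' (O ∩ (closure ({d} : Set S))ᶜ) := by
          ext z
          show (f z : S) ∈ O ↔ (z : S) ∈ O ∩ (closure ({d} : Set S))ᶜ
          by_cases hz : (z : S) = d
          · rw [hfd _ hz, hz]
            exact ⟨fun h => absurd h hO', fun h => absurd h.2 hdD⟩
          · rw [hfP _ hz]
            exact ⟨fun h => ⟨h, hPD _ (z.2.resolve_left hz)⟩, fun h => h.1⟩
        rw [this]
        exact (hO.inter hD).preimage continuous_subtype_val
    · rw [Topology.IsInducing.subtypeVal.continuous_iff]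
      rw [continuous_def]
      intro O hO
      by_cases hO' : d ∈ O
      · have : (Subtype.val ∘ g) ⁻¹' O = univ := by
          apply eq_univ_of_forall
          intro z
          show (g z : S) ∈ O
          by_cases hz : (z : S) = d'
          · rw [hgd _ hz]; exact hO'
          · rw [hgP _ hz]
            exact hupP O hO hO' (z.2.resolve_left hz)
        rw [this]
        exact isOpen_univ
      · have : (Subtype.val ∘ g) ⁻¹' O = Subtype.val ⁻¹' O := by
          ext z
          show (g z : S) ∈ O ↔ (z : S) ∈ O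
          by_cases hz : (z : S) = d'
          · rw [hgd _ hz, hz]
            exact ⟨fun h => absurd h hO', fun h => hup O hO h⟩
          · rw [hgP _ hz]
        rw [this]
        exact hO.preimage continuous_subtype_val
  obtain ⟨h, hh⟩ := hS _ _ hhom
  have hspec : ∀ a b : S, h a ⤳ h b ↔ a ⤳ b := fun a b =>
    h.isInducing.specializes_iff
  have hmem : ∀ z, z ∈ X ↔ h z ∈ X' := by
    intro z
    rw [← hh]
    constructor
    · intro hz
      exact ⟨z, hz, rfl⟩
    · rintro ⟨w, hw, he⟩
      rw [← h.injective he]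
      exact hw
  have hhd : h d = d' := by
    rcases (hmem d).1 (Or.inl rfl) with h1 | h1
    · exact h1
    · exfalso
      have h2 : d' ∈ h '' X := by rw [hh]; exact Or.inl rfl
      obtain ⟨w, hw | hw, he⟩ := h2
      · rw [mem_singleton_iff.1 hw] at he
        rw [he] at h1
        exact hd'P h1
      · have h3 : h w ⤳ h d := (hspec _ _).2 hw.1
        rw [he] at h3
        exact hcon (h3.trans h1.1)
  obtain ⟨w, hw⟩ := h.surjective d
  have h1 : w ⤳ d := by
    rw [← hspec, hw, hhd]
    exact hdd'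
  have h2 : ¬ d ⤳ w := by
    rw [← hspec, hw, hhd]
    exact hcon
  have h3 := (hmem w).1 (Or.inr ⟨h1, h2⟩)
  rw [hw] at h3
  rcases h3 with h3 | h3
  · exact hne h3
  · exact hdP h3

/-- A T1 thin space with two disjoint nonempty open sets is Hausdorff. -/
theorem t2_of_disjoint [T1Space S] (hS : Thin S) (U V : Set S) (hU : IsOpen U) (hV : IsOpen V)
    (hUne : U.Nonempty) (hVne : V.Nonempty) (hd : Disjoint U V) : T2Space S := by
  obtain ⟨p, hp⟩ := hUne
  obtain ⟨q, hq⟩ := hVne
  have hpq : p ≠ q := by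
    rintro rfl
    exact Set.disjoint_left.1 hd hp hq
  constructor
  intro x y hxy
  obtain ⟨h, hh⟩ := hS _ _ (pairHomeo hpq hxy)
  have hhU : IsOpen (h '' U) := h.isOpenMap _ hU
  have hhV : IsOpen (h '' V) := h.isOpenMap _ hV
  have hhd : Disjoint (h '' U) (h '' V) := (disjoint_image_iff h.injective).2 hd
  have hp' : h p = x ∨ h p = y := by
    have : h p ∈ ({x} ∪ {y} : Set S) := by rw [← hh]; exact ⟨p, Or.inl rfl, rfl⟩
    exact this
  have hq' : h q = x ∨ h q = y := by
    have : h q ∈ ({x} ∪ {y} : Set S) := by rw [← hh]; exact ⟨q, Or.inr rfl, rfl⟩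
    exact this
  have hne : h p ≠ h q := fun he => hpq (h.injective he)
  rcases hp' with h1 | h1 <;> rcases hq' with h2 | h2
  · exact absurd (h1.trans h2.symm) hne
  · exact ⟨h '' U, h '' V, hhU, hhV, ⟨p, hp, h1⟩, ⟨q, hq, h2⟩, hhd⟩
  · exact ⟨h '' V, h '' U, hhV, hhU, ⟨q, hq, h2⟩, ⟨p, hp, h1⟩, hhd.symm⟩
  · exact absurd (h1.trans h2.symm) hne

end gen

section quot

variable {S : Type u} [TopologicalSpace S]

open SeparationQuotient

theorem quot_of_homeo (h : S ≃ₜ S) :
    ∃ h0 : SeparationQuotient S ≃ₜ SeparationQuotient S, ∀ z : S, h0 (mk z) = mk (h z) := by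
  have hc : ∀ k : S ≃ₜ S, ∀ x y : S, Inseparable x y → (mk (k x) : SeparationQuotient S) = mk (k y) :=
    fun k x y hxy => mk_eq_mk.2 (hxy.map k.continuous)
  refine ⟨{ toFun := SeparationQuotient.lift (fun z => mk (h z)) (hc h)
            invFun := SeparationQuotient.lift (fun z => mk (h.symm z)) (hc h.symm)
            left_inv := ?_, right_inv := ?_, continuous_toFun := ?_, continuous_invFun := ?_ },
            ?_⟩
  · intro z
    obtain ⟨z, rfl⟩ := surjective_mk z
    simp
  · intro z
    obtain ⟨z, rfl⟩ := surjective_mk z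
    simp
  · exact SeparationQuotient.continuous_lift (continuous_mk.comp h.continuous)
  · exact SeparationQuotient.continuous_lift (continuous_mk.comp h.symm.continuous)
  · intro z
    rfl

theorem homeo_mk_iff (h : S ≃ₜ S) (x y : S) :
    (mk (h x) : SeparationQuotient S) = mk (h y) ↔ (mk x : SeparationQuotient S) = mk y := by
  rw [mk_eq_mk, mk_eq_mk]
  exact h.isInducing.inseparable_iff

/-- all classes are equinumerous -/
theorem fib_equiv (hS : Thin S) (q q' : SeparationQuotient S) :
    Nonempty ({z : S // (mk z : SeparationQuotient S) = q} ≃ {z : S // (mk z :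
      SeparationQuotient S) = q'}) := by
  obtain ⟨x, rfl⟩ := surjective_mk q
  obtain ⟨y, rfl⟩ := surjective_mk q'
  obtain ⟨h, hh⟩ := homog hS x y
  refine ⟨h.toEquiv.subtypeEquiv ?_⟩
  intro z
  show mk z = mk x ↔ mk (h z) = mk y
  rw [← hh, homeo_mk_iff]

theorem lift_homeo (hS : Thin S) [Nonempty S] (A B : Set (SeparationQuotient S))
    (e : A ≃ₜ B) : Nonempty ((mk ⁻¹' A : Set S) ≃ₜ (mk ⁻¹' B : Set S)) := by
  classical
  let q0 : SeparationQuotient S := mk (Classical.arbitrary S)
  have β : ∀ q : SeparationQuotient S, {z : S // (mk z : SeparationQuotient S) = q} ≃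
      {z : S // (mk z : SeparationQuotient S) = q0} := fun q => (fib_equiv hS q q0).some
  let Φ : S ≃ SeparationQuotient S × {z : S // (mk z : SeparationQuotient S) = q0} :=
    (Equiv.sigmaFiberEquiv (mk : S → SeparationQuotient S)).symm.trans
      ((Equiv.sigmaCongrRight β).trans (Equiv.sigmaEquivProd _ _))
  have hΦ : ∀ z, (Φ z).1 = mk z := fun z => rfl
  have hΦs : ∀ p, (mk (Φ.symm p) : SeparationQuotient S) = p.1 := by
    intro p
    rw [← hΦ, Equiv.apply_symm_apply]
  let F : (mk ⁻¹' A : Set S) → (mk ⁻¹' B : Set S) := fun z =>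
    ⟨Φ.symm ((e ⟨mk z.1, z.2⟩ : SeparationQuotient S), (Φ z.1).2), by
      rw [mem_preimage, hΦs]; exact (e ⟨mk z.1, z.2⟩).2⟩
  let G : (mk ⁻¹' B : Set S) → (mk ⁻¹' A : Set S) := fun z =>
    ⟨Φ.symm ((e.symm ⟨mk z.1, z.2⟩ : SeparationQuotient S), (Φ z.1).2), by
      rw [mem_preimage, hΦs]; exact (e.symm ⟨mk z.1, z.2⟩).2⟩
  have hF : ∀ z, (mk (F z).1 : SeparationQuotient S) = e ⟨mk z.1, z.2⟩ := fun z => hΦs _
  have hG : ∀ z, (mk (G z).1 : SeparationQuotient S) = e.symm ⟨mk z.1, z.2⟩ := fun z => hΦs _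
  have hF2 : ∀ z, (Φ (F z).1).2 = (Φ z.1).2 := by
    intro z
    simp only [F, Equiv.apply_symm_apply]
  have hG2 : ∀ z, (Φ (G z).1).2 = (Φ z.1).2 := by
    intro z
    simp only [G, Equiv.apply_symm_apply]
  refine ⟨{ toFun := F, invFun := G, left_inv := ?_, right_inv := ?_,
            continuous_toFun := ?_, continuous_invFun := ?_ }⟩
  · intro z
    apply Subtype.ext
    apply Φ.injective
    apply Prod.ext
    · rw [hΦ, hΦ, hG]
      have : (⟨mk (F z).1, (F z).2⟩ : B) = e ⟨mk z.1, z.2⟩ := Subtype.ext (hF z)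
      rw [this, Homeomorph.symm_apply_apply]
    · rw [hG2, hF2]
  · intro z
    apply Subtype.ext
    apply Φ.injective
    apply Prod.ext
    · rw [hΦ, hΦ, hF]
      have : (⟨mk (G z).1, (G z).2⟩ : A) = e.symm ⟨mk z.1, z.2⟩ := Subtype.ext (hG z)
      rw [this, Homeomorph.apply_symm_apply]
    · rw [hF2, hG2]
  · rw [(isInducing_mk.comp Topology.IsInducing.subtypeVal).continuous_iff]
    have : ((mk : S → SeparationQuotient S) ∘ Subtype.val) ∘ F =
        fun z => (e ⟨mk z.1, z.2⟩ : SeparationQuotient S) := funext hF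
    rw [this]
    exact continuous_subtype_val.comp (e.continuous.comp
      ((continuous_mk.comp continuous_subtype_val).subtype_mk _))
  · rw [(isInducing_mk.comp Topology.IsInducing.subtypeVal).continuous_iff]
    have : ((mk : S → SeparationQuotient S) ∘ Subtype.val) ∘ G =
        fun z => (e.symm ⟨mk z.1, z.2⟩ : SeparationQuotient S) := funext hG
    rw [this]
    exact continuous_subtype_val.comp (e.symm.continuous.comp
      ((continuous_mk.comp continuous_subtype_val).subtype_mk _))

/-- The Kolmogorov quotient of a thin space is thin. -/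
theorem thin_quot (hS : Thin S) : Thin (SeparationQuotient S) := by
  intro A B hAB
  obtain ⟨e⟩ := hAB
  by_cases hne : Nonempty S
  · obtain ⟨h, hh⟩ := hS _ _ (lift_homeo hS A B e)
    obtain ⟨h0, h0h⟩ := quot_of_homeo h
    refine ⟨h0, ?_⟩
    apply Subset.antisymm
    · rintro _ ⟨q, hq, rfl⟩
      obtain ⟨z, rfl⟩ := surjective_mk q
      rw [h0h]
      have : h z ∈ mk ⁻¹' B := by rw [← hh]; exact ⟨z, hq, rfl⟩
      exact this
    · intro q hq
      obtain ⟨z, rfl⟩ := surjective_mk q
      have : z ∈ h '' (mk ⁻¹' A) := by rw [hh]; exact hq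
      obtain ⟨w, hw, rfl⟩ := this
      exact ⟨mk w, hw, h0h w⟩
  · rw [not_nonempty_iff] at hne
    refine ⟨Homeomorph.refl _, ?_⟩
    have : ∀ C : Set (SeparationQuotient S), C = ∅ := by
      intro C
      rw [eq_empty_iff_forall_notMem]
      intro q
      obtain ⟨z, rfl⟩ := surjective_mk q
      exact (hne.false z).elim
    rw [this A, this B, image_empty]

/-- The classes are finite. -/
theorem fib_finite (hS : Thin S) (x : S) : {z : S | (mk z : SeparationQuotient S) = mk x}.Finite := by
  by_contra hinf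
  set F : Set S := {z : S | (mk z : SeparationQuotient S) = mk x} with hF
  have hinf : F.Infinite := hinf
  have : Infinite F := hinf.to_subtype
  obtain ⟨σ⟩ := remove_one (⟨x, rfl⟩ : F)
  let E : F ≃ (F \ {x} : Set S) := σ.trans
    { toFun := fun z => ⟨z.1.1, z.1.2, fun h => z.2 (Subtype.ext h)⟩
      invFun := fun z => ⟨⟨z.1, z.2.1⟩, fun h => z.2.2 (congrArg Subtype.val h)⟩
      left_inv := fun z => rfl
      right_inv := fun z => rfl }
  have hE : Nonempty (F ≃ₜ (F \ {x} : Set S)) := by
    refine ⟨{ toEquiv := E, continuous_toFun := ?_, continuous_invFun := ?_ }⟩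
    · show Continuous E
      rw [(isInducing_mk.comp Topology.IsInducing.subtypeVal).continuous_iff]
      have : ((mk : S → SeparationQuotient S) ∘ Subtype.val) ∘ E = fun _ => mk x :=
        funext fun z => (E z).2.1
      rw [this]
      exact continuous_const
    · show Continuous E.symm
      rw [(isInducing_mk.comp Topology.IsInducing.subtypeVal).continuous_iff]
      have : ((mk : S → SeparationQuotient S) ∘ Subtype.val) ∘ E.symm = fun _ => mk x :=
        funext fun z => (E.symm z).2
      rw [this]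
      exact continuous_const
  obtain ⟨h, hh⟩ := hS _ _ hE
  obtain ⟨y, hy⟩ : (F \ {x}).Nonempty := (hinf.sdiff (finite_singleton x)).nonempty
  have hy' := hy
  rw [← hh] at hy'
  obtain ⟨w, hw, rfl⟩ := hy'
  obtain ⟨v, hv⟩ := h.surjective x
  have h1 : v ∈ F := by
    have : (mk (h v) : SeparationQuotient S) = mk (h w) := by rw [hv]; exact hy.1.symm
    rw [homeo_mk_iff] at this
    exact this.trans hw
  have h2 : x ∈ h '' F := ⟨v, h1, hv⟩
  rw [hh] at h2
  exact h2.2 rfl

theorem quot_infinite [Infinite S] (hS : Thin S) : Infinite (SeparationQuotient S) := by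
  by_contra hfin
  rw [not_infinite_iff_finite] at hfin
  have h1 : (univ : Set S) ⊆ ⋃ q : SeparationQuotient S, {z : S | mk z = q} := fun z _ =>
    mem_iUnion.2 ⟨mk z, rfl⟩
  have h2 : (⋃ q : SeparationQuotient S, {z : S | (mk z : SeparationQuotient S) = q}).Finite := by
    apply Set.finite_iUnion
    intro q
    obtain ⟨x, rfl⟩ := surjective_mk q
    exact fib_finite hS x
  exact Set.infinite_univ (h2.subset h1)

/-- In an infinite thin space any two nonempty open sets intersect. -/
theorem hyperconnected [Infinite S] (hS : Thin S) (U V : Set S) (hU : IsOpen U) (hV : IsOpen V)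
    (hUne : U.Nonempty) (hVne : V.Nonempty) : (U ∩ V).Nonempty := by
  by_contra hcon
  have hd : Disjoint U V := by
    rw [Set.disjoint_iff_inter_eq_empty]
    rwa [not_nonempty_iff_eq_empty] at hcon
  have hr0 := thin_r0 hS
  have hT := thin_quot hS
  have hT1 : T1Space (SeparationQuotient S) := SeparationQuotient.t1Space_iff.2 hr0
  have hinf := quot_infinite hS
  have hT2 : T2Space (SeparationQuotient S) := by
    apply t2_of_disjoint hT (mk '' U) (mk '' V) (isOpenMap_mk _ hU) (isOpenMap_mk _ hV)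
      (hUne.image _) (hVne.image _)
    rw [Set.disjoint_left]
    rintro _ ⟨u, hu, rfl⟩ ⟨v, hv, he⟩
    have h1 : u ∈ (mk ⁻¹' (mk '' V) : Set S) := ⟨v, hv, he⟩
    rw [preimage_image_mk_open hV] at h1
    exact Set.disjoint_left.1 hd hu h1
  exact no_t2 hT

end quot


/-- The main result: every infinite thin space is R0, its Kolmogorov quotient is again an infinite
thin space which is T1 and has finite classes, and any two nonempty open sets intersect. -/
theorem result (S : Type u) [TopologicalSpace S] [Infinite S] (hS : Thin S) :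
    (∀ U V : Set S, IsOpen U → IsOpen V → U.Nonempty → V.Nonempty → (U ∩ V).Nonempty) ∧
    Thin (SeparationQuotient S) ∧ Infinite (SeparationQuotient S) ∧
    T1Space (SeparationQuotient S) ∧ (∀ x : S, {y : S | Inseparable y x}.Finite) := by
  refine ⟨fun U V hU hV hUne hVne => hyperconnected hS U V hU hV hUne hVne, thin_quot hS,
    quot_infinite hS, SeparationQuotient.t1Space_iff.2 (thin_r0 hS), fun x => ?_⟩
  have h := fib_finite hS x
  have e : {y : S | Inseparable y x} =
      {z : S | (SeparationQuotient.mk z : SeparationQuotient S) = SeparationQuotient.mk x} := by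
    ext z
    exact SeparationQuotient.mk_eq_mk.symm
  rw [e]
  exact h

end Pool.Agent.Results.MP_52f683_gt.Hyperconnected
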